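import Mathlib
import Pool.Agent.Lib.MP_570bef_ntS.Defs

/-!
# Definitions for the second moment (`MP_570bef_nt`, `SH`)

From `MP_570bef_ntS.Defs`: `kap k = 1 - 1/k`; `rg a X` = natural numbers in `(a X, 2 a X]`; `TU k s a X` = tuples `u` with `u i ∈ rg a (X^(kap k^i))`, `i < s`;
`Ph d β u = ∑ (u i + β)^d`; `TT k s j X` = pairs `(u, v)`, `u ∈ TU k s 1 X`, `v ∈ TU k j 8 X`; `Pt d β (u, v) = Ph d β u + Ph d β v`.
-/

set_option autoImplicit false

namespace Pool.Agent.Lib.MP_570bef_ntSH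

open Finset
open Pool.Agent.Lib.MP_570bef_ntS

/-- number of pairs of elements of `TT` with values at distance at most `R` -/
noncomputable def NN (k s j : ℕ) (β R X : ℝ) : ℕ :=
  ((TT k s j X ×ˢ TT k s j X).filter (fun z => |Pt k β z.1 - Pt k β z.2| ≤ R)).card

/-- the smallest size of the derivative -/
noncomputable def rho0 (k s : ℕ) (X : ℝ) : ℝ := X ^ ((k : ℝ) - 1 - (k : ℝ) * kap k ^ s)

/-- bound for the first derivative -/
noncomputable def WW (k s j : ℕ) (X : ℝ) : ℝ := (k : ℝ) * ((s : ℝ) + j) * (18 * X) ^ (k - 1)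

/-- bound for the second derivative -/
noncomputable def MM (k s j : ℕ) (X : ℝ) : ℝ := (k : ℝ) ^ 2 * ((s : ℝ) + j) * (18 * X) ^ (k - 2)

end Pool.Agent.Lib.MP_570bef_ntSH
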