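import Mathlib
import Pool.Agent.Lib.MP_570bef_ntSH.Defs

/-!
# The number `kap k = 1 - 1/k`
-/

set_option autoImplicit false

namespace Pool.Agent.Lib.MP_570bef_ntSH

open Finset
open Pool.Agent.Lib.MP_570bef_ntS

theorem kap_pos {k : ℕ} (hk : 2 ≤ k) : 0 < kap k := by
  have h : (2 : ℝ) ≤ k := by exact_mod_cast hk
  unfold kap
  rw [sub_pos, div_lt_one (by linarith)]
  linarith

theorem kap_lt_one {k : ℕ} (hk : 2 ≤ k) : kap k < 1 := by
  have h : (2 : ℝ) ≤ k := by exact_mod_cast hk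
  unfold kap
  have : 0 < 1 / (k : ℝ) := by positivity
  linarith

theorem k_mul_kap {k : ℕ} (hk : 2 ≤ k) : (k : ℝ) * kap k = k - 1 := by
  have h : (2 : ℝ) ≤ k := by exact_mod_cast hk
  unfold kap
  rw [mul_sub, mul_one, mul_one_div, div_self (by linarith)]

theorem kap_pow_pos {k : ℕ} (hk : 2 ≤ k) (s : ℕ) : 0 < kap k ^ s := pow_pos (kap_pos hk) s

theorem kap_pow_le_one {k : ℕ} (hk : 2 ≤ k) (s : ℕ) : kap k ^ s ≤ 1 :=
  pow_le_one₀ (kap_pos hk).le (kap_lt_one hk).le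

theorem k_kap_succ {k : ℕ} (hk : 2 ≤ k) (s : ℕ) :
    (k : ℝ) * kap k ^ (s + 1) = ((k : ℝ) - 1) * kap k ^ s := by
  rw [pow_succ', ← mul_assoc, k_mul_kap hk]

theorem rpow_kap_pow {k : ℕ} {X : ℝ} (hX : 0 ≤ X) (i : ℕ) :
    (X ^ kap k) ^ (kap k ^ i) = X ^ (kap k ^ (i + 1)) := by
  rw [← Real.rpow_mul hX, pow_succ']

theorem rpow_kap_nat {k : ℕ} (hk : 2 ≤ k) {X : ℝ} (hX : 0 ≤ X) :
    (X ^ kap k) ^ k = X ^ (k - 1) := by
  rw [← Real.rpow_natCast, ← Real.rpow_mul hX, mul_comm, k_mul_kap hk, ← Real.rpow_natCast]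
  congr 1
  push_cast [Nat.cast_sub (show 1 ≤ k by omega)]
  ring

theorem one_le_rpow_kap {k : ℕ} (hk : 2 ≤ k) {X : ℝ} (hX : 1 ≤ X) : 1 ≤ X ^ kap k :=
  Real.one_le_rpow hX (kap_pos hk).le

theorem good_one {k s j : ℕ} (h : Good k s j) : 3 * ((k : ℝ) * kap k ^ s) < k := by
  have h0 : (2 : ℝ) ≤ k := by exact_mod_cast h.hk
  have := h.h1
  nlinarith

theorem good_two {k s j : ℕ} (h : Good k s j) : 2 * ((k : ℝ) * kap k ^ s) < k - 1 := by
  have h0 : (2 : ℝ) ≤ k := by exact_mod_cast h.hk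
  have h1 := h.h2
  have h2 := k_mul_kap h.hk
  nlinarith

theorem good_three {k s j : ℕ} (h : Good k s j) :
    ((k : ℝ) - 1) * kap k ^ j + (k : ℝ) * kap k ^ s < k - 1 := by
  have h0 : (2 : ℝ) ≤ k := by exact_mod_cast h.hk
  have h1 := h.h3
  have h2 := k_mul_kap h.hk
  have h3 : (k : ℝ) * (kap k * kap k ^ j + kap k ^ s) < k * kap k :=
    mul_lt_mul_of_pos_left h1 (by linarith)
  rw [h2, mul_add, ← mul_assoc, h2] at h3
  exact h3

theorem good_pos {k s j : ℕ} (h : Good k s j) : 1 ≤ s := by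
  by_contra hs
  have : s = 0 := by omega
  have h1 := h.h1
  rw [this] at h1
  norm_num at h1

end Pool.Agent.Lib.MP_570bef_ntSH
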