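import Mathlib
import Pool.Agent.Lib.MP_570bef_ntSH.Kap

/-!
# Ranges, recursion of the tuples, fibres
-/

set_option autoImplicit false

namespace Pool.Agent.Lib.MP_570bef_ntSH

open Finset
open Pool.Agent.Lib.MP_570bef_ntS

theorem mem_rg {a X : ℝ} (h : 0 ≤ a * X) {n : ℕ} :
    n ∈ rg a X ↔ a * X < n ∧ (n : ℝ) ≤ 2 * a * X := by
  unfold rg
  rw [Finset.mem_Ioc, Nat.floor_lt h, Nat.le_floor_iff (by linarith)]

theorem mem_TU {k s : ℕ} {a X : ℝ} {u : Fin s → ℕ} :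
    u ∈ TU k s a X ↔ ∀ i : Fin s, u i ∈ rg a (X ^ (kap k ^ (i : ℕ))) := by
  unfold TU
  rw [Fintype.mem_piFinset]

theorem mem_TU_succ {k s : ℕ} {a X : ℝ} (hX : 0 ≤ X) {u : Fin (s + 1) → ℕ} :
    u ∈ TU k (s + 1) a X ↔ u 0 ∈ rg a X ∧ Fin.tail u ∈ TU k s a (X ^ kap k) := by
  rw [mem_TU, mem_TU, Fin.forall_fin_succ]
  refine and_congr ?_ ?_
  · simp
  · refine forall_congr' fun i => ?_
    rw [rpow_kap_pow hX, Fin.val_succ]
    rfl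

theorem Ph_succ (d : ℕ) (β : ℝ) {s : ℕ} (u : Fin (s + 1) → ℕ) :
    Ph d β u = ((u 0 : ℝ) + β) ^ d + Ph d β (Fin.tail u) := by
  unfold Ph
  rw [Fin.sum_univ_succ]
  rfl

theorem Ph_nonneg (d : ℕ) {β : ℝ} (hβ : 0 ≤ β) {s : ℕ} (u : Fin s → ℕ) : 0 ≤ Ph d β u := by
  unfold Ph
  exact Finset.sum_nonneg fun i _ => by positivity

theorem Pt_nonneg (d : ℕ) {β : ℝ} (hβ : 0 ≤ β) {s j : ℕ} (t : (Fin s → ℕ) × (Fin j → ℕ)) :
    0 ≤ Pt d β t := add_nonneg (Ph_nonneg d hβ _) (Ph_nonneg d hβ _)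

theorem Ph_le (d : ℕ) {k s : ℕ} {a X β : ℝ} (hk : 2 ≤ k) (ha : 1 ≤ a) (hX : 1 ≤ X) (hβ : 0 ≤ β)
    (hβ2 : β ≤ 2) {u : Fin s → ℕ} (hu : u ∈ TU k s a X) :
    Ph d β u ≤ s * ((2 * a + 2) * X) ^ d := by
  unfold Ph
  have h : ∀ i ∈ (Finset.univ : Finset (Fin s)), ((u i : ℝ) + β) ^ d ≤ ((2 * a + 2) * X) ^ d := by
    intro i _
    have h1 := (mem_TU.1 hu) i
    have h2 : (1 : ℝ) ≤ X ^ (kap k ^ (i : ℕ)) := Real.one_le_rpow hX (kap_pow_pos hk _).le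
    have h3 : X ^ (kap k ^ (i : ℕ)) ≤ X := by
      calc X ^ (kap k ^ (i : ℕ)) ≤ X ^ (1 : ℝ) :=
            Real.rpow_le_rpow_of_exponent_le hX (kap_pow_le_one hk _)
        _ = X := Real.rpow_one X
    rw [mem_rg (by nlinarith)] at h1
    refine pow_le_pow_left₀ (by positivity) ?_ d
    nlinarith [h1.2]
  calc ∑ i : Fin s, ((u i : ℝ) + β) ^ d ≤ ∑ _i : Fin s, ((2 * a + 2) * X) ^ d :=
        Finset.sum_le_sum h
    _ = s * ((2 * a + 2) * X) ^ d := by simp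

theorem Pt_le (d : ℕ) {k s j : ℕ} {X β : ℝ} (hk : 2 ≤ k) (hX : 1 ≤ X) (hβ : 0 ≤ β)
    (hβ2 : β ≤ 2) {t : (Fin s → ℕ) × (Fin j → ℕ)} (ht : t ∈ TT k s j X) :
    Pt d β t ≤ ((s : ℝ) + j) * (18 * X) ^ d := by
  unfold TT at ht
  rw [Finset.mem_product] at ht
  have h1 := Ph_le d hk (le_refl 1) hX hβ hβ2 ht.1
  have h2 := Ph_le d hk (show (1 : ℝ) ≤ 8 by norm_num) hX hβ hβ2 ht.2
  have h3 : ((2 * (1 : ℝ) + 2) * X) ^ d ≤ (18 * X) ^ d :=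
    pow_le_pow_left₀ (by positivity) (by linarith) d
  have h4 : ((2 * (8 : ℝ) + 2) * X) = 18 * X := by ring
  rw [h4] at h2
  unfold Pt
  have h5 : (s : ℝ) * ((2 * (1 : ℝ) + 2) * X) ^ d ≤ s * (18 * X) ^ d :=
    mul_le_mul_of_nonneg_left h3 (by positivity)
  linarith

theorem mem_TT_succ {k s j : ℕ} {X : ℝ} (hX : 0 ≤ X) {t : (Fin (s + 1) → ℕ) × (Fin (j + 1) → ℕ)} :
    t ∈ TT k (s + 1) (j + 1) X ↔ (t.1 0 ∈ rg 1 X ∧ t.2 0 ∈ rg 8 X) ∧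
      (Fin.tail t.1, Fin.tail t.2) ∈ TT k s j (X ^ kap k) := by
  unfold TT
  rw [Finset.mem_product, Finset.mem_product, mem_TU_succ hX, mem_TU_succ hX]
  tauto

theorem Pt_succ (d : ℕ) (β : ℝ) {s j : ℕ} (t : (Fin (s + 1) → ℕ) × (Fin (j + 1) → ℕ)) :
    Pt d β t = ((t.1 0 : ℝ) + β) ^ d + ((t.2 0 : ℝ) + β) ^ d +
      Pt d β (Fin.tail t.1, Fin.tail t.2) := by
  unfold Pt
  rw [Ph_succ, Ph_succ]
  ring

/-- counting through a map with bounded fibres -/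
theorem card_fib {α γ : Type*} [DecidableEq γ] (S : Finset α) (T : Finset γ) (f : α → γ)
    (hf : ∀ a ∈ S, f a ∈ T) {B : ℝ}
    (hB : ∀ b ∈ T, ((S.filter (fun a => f a = b)).card : ℝ) ≤ B) :
    (S.card : ℝ) ≤ B * T.card := by
  rw [Finset.card_eq_sum_card_fiberwise hf]
  push_cast
  calc ∑ b ∈ T, ((S.filter (fun a => f a = b)).card : ℝ) ≤ ∑ _b ∈ T, B := Finset.sum_le_sum hB
    _ = B * T.card := by rw [Finset.sum_const, nsmul_eq_mul, mul_comm]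

/-- a set of natural numbers of diameter at most `L` has at most `L + 1` elements -/
theorem card_le_of_diam (S : Finset ℕ) {L : ℝ} (hL : 0 ≤ L)
    (h : ∀ x ∈ S, ∀ y ∈ S, (x : ℝ) - y ≤ L) : (S.card : ℝ) ≤ L + 1 := by
  rcases S.eq_empty_or_nonempty with rfl | hS
  · simp; linarith
  · have h1 : S ⊆ Finset.Icc (S.min' hS) (S.max' hS) := fun x hx =>
      Finset.mem_Icc.2 ⟨S.min'_le x hx, S.le_max' x hx⟩
    have h2 := Finset.card_le_card h1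
    have h3 := h _ (S.max'_mem hS) _ (S.min'_mem hS)
    have h4 : S.min' hS ≤ S.max' hS := S.min'_le _ (S.max'_mem hS)
    rw [Nat.card_Icc] at h2
    have h5 : (S.card : ℝ) ≤ ((S.max' hS + 1 - S.min' hS : ℕ) : ℝ) := by exact_mod_cast h2
    rw [Nat.cast_sub (by omega)] at h5
    push_cast at h5
    linarith

/-- lower bound for the difference of two powers -/
theorem pow_sub_ge {k : ℕ} (hk : 1 ≤ k) {x y X : ℝ} (hX : 0 ≤ X) (hy : X ≤ y) (hxy : y ≤ x) :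
    (x - y) * X ^ (k - 1) ≤ x ^ k - y ^ k := by
  obtain ⟨m, rfl⟩ : ∃ m, k = m + 1 := ⟨k - 1, by omega⟩
  have h1 : X ^ m ≤ x ^ m := pow_le_pow_left₀ hX (by linarith) m
  have h2 : y ^ m ≤ x ^ m := pow_le_pow_left₀ (by linarith) hxy m
  simp only [Nat.add_sub_cancel]
  have h3 : x ^ (m + 1) - y ^ (m + 1) = (x - y) * x ^ m + y * (x ^ m - y ^ m) := by ring
  rw [h3]
  have h4 : (x - y) * X ^ m ≤ (x - y) * x ^ m := mul_le_mul_of_nonneg_left h1 (by linarith)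
  have h5 : 0 ≤ y * (x ^ m - y ^ m) := mul_nonneg (by linarith) (by linarith)
  linarith

end Pool.Agent.Lib.MP_570bef_ntSH
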