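import Mathlib
import Pool.Agent.Lib.MP_570bef_ntSH.Rec

/-!
# JOB Cards: numbers of elements (about 90 lines)

`rg_card_ge`: `card (rg a X) = ⌊2 y⌋ - ⌊y⌋` with `y = a X ≥ 1`; `⌊2 y⌋ ≥ 2 ⌊y⌋`, so it is at least `⌊y⌋ ≥ max 1 (y - 1) ≥ y / 2 ≥ X / 2`.
`rg_card_le`: at most `⌊2 a X⌋ ≤ 2 a X`.
`prod_rpow`: `∏ X^(κ^i) = X^(∑ κ^i)` and `∑_(i < s) κ^i = k (1 - κ^s)` as `1 - κ = 1/k` (induction on `s`: `Fin.prod_univ_castSucc`; or `Real.rpow_add` in an induction).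
`TU_card_ge`, `TU_card_le`: `Fintype.card_piFinset`, products of the bounds for `rg a (X^(κ^i))` with `X^(κ^i) ≥ 1` (`Finset.prod_le_prod`).
`TT_card_ge`: `Finset.card_product`, `a = 1` and `a = 8`.
-/

set_option autoImplicit false

namespace Pool.Agent.Lib.MP_570bef_ntSH

open Finset
open Pool.Agent.Lib.MP_570bef_ntS

theorem rg_card_ge {a X : ℝ} (ha : 1 ≤ a) (hX : 1 ≤ X) : X / 2 ≤ ((rg a X).card : ℝ) := by
  have hy : X ≤ a * X := by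
    have h1 : 1 * X ≤ a * X := mul_le_mul_of_nonneg_right ha (by linarith)
    linarith
  have hy1 : 1 ≤ a * X := by linarith
  have h1 : 1 ≤ ⌊a * X⌋₊ := Nat.floor_pos.2 hy1
  have h2 : 2 * ⌊a * X⌋₊ ≤ ⌊2 * a * X⌋₊ := by
    refine Nat.le_floor ?_
    have h3 : (⌊a * X⌋₊ : ℝ) ≤ a * X := Nat.floor_le (by linarith)
    push_cast
    linarith
  have h3 : ⌊a * X⌋₊ ≤ (rg a X).card := by
    unfold rg
    rw [Nat.card_Ioc]
    omega
  have h4 : (⌊a * X⌋₊ : ℝ) ≤ ((rg a X).card : ℝ) := by exact_mod_cast h3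
  have h5 : (1 : ℝ) ≤ (⌊a * X⌋₊ : ℝ) := by exact_mod_cast h1
  have h6 : a * X < (⌊a * X⌋₊ : ℝ) + 1 := Nat.lt_floor_add_one _
  linarith

theorem rg_card_le {a X : ℝ} (ha : 1 ≤ a) (hX : 1 ≤ X) : ((rg a X).card : ℝ) ≤ 2 * a * X := by
  have h1 : (rg a X).card ≤ ⌊2 * a * X⌋₊ := by
    unfold rg
    rw [Nat.card_Ioc]
    omega
  have h2 : ((rg a X).card : ℝ) ≤ (⌊2 * a * X⌋₊ : ℝ) := by exact_mod_cast h1
  exact h2.trans (Nat.floor_le (by positivity))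

private theorem Cards_kap0 {k : ℕ} (hk : 2 ≤ k) : 0 ≤ kap k := by
  have hk' : (2 : ℝ) ≤ k := by exact_mod_cast hk
  unfold kap
  rw [sub_nonneg, div_le_one (by linarith)]
  linarith

private theorem Cards_kmul {k : ℕ} (hk : 2 ≤ k) : (k : ℝ) * kap k = k - 1 := by
  have hk' : (2 : ℝ) ≤ k := by exact_mod_cast hk
  unfold kap
  rw [mul_sub, mul_one, mul_one_div_cancel (by linarith)]

theorem prod_rpow {k : ℕ} (hk : 2 ≤ k) (s : ℕ) {X : ℝ} (hX : 0 < X) :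
    ∏ i : Fin s, X ^ (kap k ^ (i : ℕ)) = X ^ ((k : ℝ) * (1 - kap k ^ s)) := by
  induction s with
  | zero =>
    rw [pow_zero, sub_self, mul_zero, Real.rpow_zero, Fin.prod_univ_zero]
  | succ s ih =>
    rw [Fin.prod_univ_castSucc]
    have h1 : ∏ i : Fin s, X ^ (kap k ^ ((Fin.castSucc i : Fin (s + 1)) : ℕ)) =
        ∏ i : Fin s, X ^ (kap k ^ (i : ℕ)) := rfl
    rw [h1, ih, Fin.val_last, ← Real.rpow_add hX]
    congr 1
    have h2 := Cards_kmul hk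
    rw [pow_succ]
    linear_combination (kap k ^ s) * h2

private theorem Cards_one {k : ℕ} (hk : 2 ≤ k) {X : ℝ} (hX : 1 ≤ X) (i : ℕ) :
    1 ≤ X ^ (kap k ^ i) := Real.one_le_rpow hX (pow_nonneg (Cards_kap0 hk) i)

theorem TU_card_ge {k s : ℕ} {a X : ℝ} (hk : 2 ≤ k) (ha : 1 ≤ a) (hX : 1 ≤ X) :
    (1 / 2) ^ s * X ^ ((k : ℝ) * (1 - kap k ^ s)) ≤ ((TU k s a X).card : ℝ) := by
  have hX0 : 0 < X := by linarith
  unfold TU
  rw [Fintype.card_piFinset, Nat.cast_prod, ← prod_rpow hk s hX0]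
  have h1 : ((1 : ℝ) / 2) ^ s * ∏ i : Fin s, X ^ (kap k ^ (i : ℕ)) =
      ∏ i : Fin s, (X ^ (kap k ^ (i : ℕ)) / 2) := by
    rw [Finset.prod_div_distrib, Finset.prod_const, Finset.card_univ, Fintype.card_fin]
    rw [one_div, inv_pow, inv_mul_eq_div]
  rw [h1]
  refine Finset.prod_le_prod (fun i _ => ?_) fun i _ => rg_card_ge ha (Cards_one hk hX i)
  have := Cards_one hk hX (i : ℕ)
  linarith

theorem TU_card_le {k s : ℕ} {a X : ℝ} (hk : 2 ≤ k) (ha : 1 ≤ a) (hX : 1 ≤ X) :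
    ((TU k s a X).card : ℝ) ≤ (2 * a) ^ s * X ^ ((k : ℝ) * (1 - kap k ^ s)) := by
  have hX0 : 0 < X := by linarith
  unfold TU
  rw [Fintype.card_piFinset, Nat.cast_prod, ← prod_rpow hk s hX0]
  have h1 : (2 * a) ^ s * ∏ i : Fin s, X ^ (kap k ^ (i : ℕ)) =
      ∏ i : Fin s, (2 * a * X ^ (kap k ^ (i : ℕ))) := by
    rw [Finset.prod_mul_distrib, Finset.prod_const, Finset.card_univ, Fintype.card_fin]
  rw [h1]
  exact Finset.prod_le_prod (fun i _ => Nat.cast_nonneg _) fun i _ =>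
    rg_card_le ha (Cards_one hk hX i)

theorem TT_card_ge {k s j : ℕ} {X : ℝ} (hk : 2 ≤ k) (hX : 1 ≤ X) :
    (1 / 2) ^ (s + j) * X ^ ((k : ℝ) * (1 - kap k ^ s) + (k : ℝ) * (1 - kap k ^ j)) ≤
      ((TT k s j X).card : ℝ) := by
  have hX0 : 0 < X := by linarith
  have h1 := TU_card_ge (s := s) (a := 1) hk le_rfl hX
  have h2 := TU_card_ge (s := j) (a := 8) hk (by norm_num) hX
  unfold TT
  rw [Finset.card_product, Nat.cast_mul, pow_add, Real.rpow_add hX0]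
  have h3 := mul_le_mul h1 h2 (by positivity) (Nat.cast_nonneg _)
  refine le_trans (le_of_eq ?_) h3
  ring

end Pool.Agent.Lib.MP_570bef_ntSH
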