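import Mathlib
import Pool.Agent.Lib.MP_570bef_ntSH.Rec

/-!
# Counting one variable
-/

set_option autoImplicit false

namespace Pool.Agent.Lib.MP_570bef_ntSH

open Finset
open Pool.Agent.Lib.MP_570bef_ntS

theorem cnt_n {k : ℕ} (hk : 1 ≤ k) {X β B R : ℝ} (hX : 1 ≤ X) (hβ : 0 ≤ β) (hR : 0 ≤ R) :
    (((rg 1 X).filter (fun n : ℕ => |((n : ℝ) + β) ^ k - B| ≤ R)).card : ℝ) ≤
      2 * R / X ^ (k - 1) + 1 := by
  refine card_le_of_diam _ (by positivity) fun x hx y hy => ?_
  rw [Finset.mem_filter, mem_rg (by linarith)] at hx hy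
  rcases le_total (x : ℝ) y with h | h
  · have : 0 ≤ 2 * R / X ^ (k - 1) := by positivity
    linarith
  · have h1 := pow_sub_ge hk (show 0 ≤ X by linarith) (show X ≤ (y : ℝ) + β by linarith [hy.1.1])
      (show (y : ℝ) + β ≤ x + β by linarith)
    have h2 := abs_le.1 hx.2
    have h3 := abs_le.1 hy.2
    rw [le_div_iff₀ (by positivity)]
    have h4 : (x : ℝ) + β - (y + β) = x - y := by ring
    rw [h4] at h1
    linarith [h2.2, h3.1]

end Pool.Agent.Lib.MP_570bef_ntSH
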