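import Mathlib
import Pool.Agent.Lib.MP_570bef_ntSH.Cards
import Pool.Agent.Lib.MP_570bef_ntSH.CntN

/-!
# JOB L1: the small ball bound for one diminishing tuple (about 150 lines)

Induction on `s` (`X, β, A, R` generalized).
`s = 0`: one tuple, `κ^0 = 1`, `R ≥ X^k`, so `1 ≤ R X^(-k)`: `C = 1`.
Step, `κ = kap k`, `Y = X^κ ≥ 1`, `S` = the set for `s + 1`; by `mem_TU_succ` and `Ph_succ` `u ∈ S` means `n = u 0 ∈ rg 1 X`, `u' = Fin.tail u ∈ TU k s 1 Y`, `|(n + β)^k + Ph k β u' - A| ≤ R`.  (`u = Fin.cons n u'`, so `u ↦ Fin.tail u` is injective on `u 0 = n` and `u ↦ u 0` is injective on `Fin.tail u = u'`.)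
Case `R ≥ X^(k-1)`: `card_fib` with `f = Fin.tail`, `T = TU k s 1 Y`: a fibre has at most `2 R/X^(k-1) + 1 ≤ 3 R/X^(k-1)` elements (`cnt_n` with `B = A - Ph k β u'`), and `card T ≤ 2^s Y^(k (1 - κ^s))` (`TU_card_le`), `Y^(k (1 - κ^s)) = X^((k - 1) - k κ^(s+1))` (`k_mul_kap`): total `≤ 3 * 2^s R X^(-k κ^(s+1))`.
Case `R < X^(k-1)`: `0 ≤ Ph k β u' ≤ s (4 Y)^k = s 4^k X^(k-1)` (`Ph_le` with `a = 1`, `rpow_kap_nat`), so `|(n + β)^k - A| ≤ (1 + s 4^k) X^(k-1)`: `card_fib` with `f u = u 0` and `T` = the set of these `n`, `card T ≤ 2 (1 + s 4^k) + 1` by `cnt_n`; a fibre is at most the number of `u' ∈ TU k s 1 Y` with `|Ph k β u' - (A - (n + β)^k)| ≤ R`, at most `C R Y^(-k κ^s) = C R X^(-k κ^(s+1))` by the induction hypothesis (`Y^(k κ^s) = X^(k κ^(s+1)) ≤ R`).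
-/

set_option autoImplicit false

namespace Pool.Agent.Lib.MP_570bef_ntSH

open Finset
open Pool.Agent.Lib.MP_570bef_ntS

private theorem L1_one {X a R : ℝ} (hX : 1 ≤ X) (h : X ^ a ≤ R) : 1 ≤ R * X ^ (-a) := by
  have h0 : 0 < X := by linarith
  have h1 : X ^ a * X ^ (-a) = 1 := by
    rw [← Real.rpow_add h0, add_neg_cancel, Real.rpow_zero]
  rw [← h1]
  exact mul_le_mul_of_nonneg_right h (Real.rpow_nonneg h0.le _)

private theorem L1_case1 {k s : ℕ} (hk : 2 ≤ k) {X β A R : ℝ} (hX : 1 ≤ X) (hβ : 0 ≤ β)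
    (hR : X ^ (k - 1) ≤ R) :
    (((TU k (s + 1) 1 X).filter (fun u => |Ph k β u - A| ≤ R)).card : ℝ) ≤
      3 * 2 ^ s * R * X ^ (-((k : ℝ) * kap k ^ (s + 1))) := by
  classical
  have hX0 : 0 < X := by linarith
  have hXk : 0 < X ^ (k - 1) := by positivity
  have hR0 : 0 ≤ R := hXk.le.trans hR
  have hY : 1 ≤ X ^ kap k := one_le_rpow_kap hk hX
  have h1 := card_fib ((TU k (s + 1) 1 X).filter (fun u => |Ph k β u - A| ≤ R)) (TU k s 1 (X ^ kap k))
    (fun u => Fin.tail u) (fun u hu => ((mem_TU_succ hX0.le).1 (Finset.mem_filter.1 hu).1).2)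
    (B := 3 * R / X ^ (k - 1)) (by
      intro u' _
      have h2 : (((TU k (s + 1) 1 X).filter (fun u => |Ph k β u - A| ≤ R)).filter
          (fun u => Fin.tail u = u')).card ≤
          ((rg 1 X).filter (fun n : ℕ => |((n : ℝ) + β) ^ k - (A - Ph k β u')| ≤ R)).card := by
        refine Finset.card_le_card_of_injOn (fun u => u 0) ?_ ?_
        · intro u hu
          obtain ⟨hu1, hu2⟩ := Finset.mem_filter.1 (Finset.mem_coe.1 hu)
          obtain ⟨hu3, hu4⟩ := Finset.mem_filter.1 hu1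
          refine Finset.mem_coe.2 (Finset.mem_filter.2 ⟨((mem_TU_succ hX0.le).1 hu3).1, ?_⟩)
          rw [Ph_succ, hu2] at hu4
          have e : ((u 0 : ℝ) + β) ^ k - (A - Ph k β u') = ((u 0 : ℝ) + β) ^ k + Ph k β u' - A := by ring
          rw [e]
          exact hu4
        · intro u hu v hv huv
          have hu2 := (Finset.mem_filter.1 (Finset.mem_coe.1 hu)).2
          have hv2 := (Finset.mem_filter.1 (Finset.mem_coe.1 hv)).2
          have huv' : u 0 = v 0 := huv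
          rw [← Fin.cons_self_tail u, ← Fin.cons_self_tail v, hu2, hv2, huv']
      have h3 := cnt_n (k := k) (by omega) hX hβ hR0 (B := A - Ph k β u')
      have h4 : (1 : ℝ) ≤ R / X ^ (k - 1) := (one_le_div hXk).2 hR
      have h5 : 2 * R / X ^ (k - 1) + 1 ≤ 3 * R / X ^ (k - 1) := by
        have e : 3 * R / X ^ (k - 1) = 2 * R / X ^ (k - 1) + R / X ^ (k - 1) := by ring
        linarith
      have h6 : ((((TU k (s + 1) 1 X).filter (fun u => |Ph k β u - A| ≤ R)).filter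
          (fun u => Fin.tail u = u')).card : ℝ) ≤
          (((rg 1 X).filter (fun n : ℕ => |((n : ℝ) + β) ^ k - (A - Ph k β u')| ≤ R)).card : ℝ) := by
        exact_mod_cast h2
      linarith)
  refine h1.trans ?_
  have h7 := TU_card_le (k := k) (s := s) (a := 1) hk le_rfl hY
  have h8 : (X ^ kap k) ^ ((k : ℝ) * (1 - kap k ^ s)) =
      X ^ (k - 1) * X ^ (-((k : ℝ) * kap k ^ (s + 1))) := by
    rw [← Real.rpow_mul hX0.le, ← Real.rpow_natCast X (k - 1), ← Real.rpow_add hX0, k_kap_succ hk]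
    congr 1
    rw [Nat.cast_sub (by omega), Nat.cast_one]
    have e := k_mul_kap hk
    calc kap k * ((k : ℝ) * (1 - kap k ^ s)) = ((k : ℝ) * kap k) * (1 - kap k ^ s) := by ring
      _ = (k : ℝ) - 1 + -(((k : ℝ) - 1) * kap k ^ s) := by
        rw [e]
        ring
  rw [h8, mul_one] at h7
  calc 3 * R / X ^ (k - 1) * ((TU k s 1 (X ^ kap k)).card : ℝ) ≤
        3 * R / X ^ (k - 1) * (2 ^ s * (X ^ (k - 1) * X ^ (-((k : ℝ) * kap k ^ (s + 1))))) :=
        mul_le_mul_of_nonneg_left h7 (by positivity)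
    _ = 3 * 2 ^ s * R * X ^ (-((k : ℝ) * kap k ^ (s + 1))) := by
      field_simp

private theorem L1_case2 {k s : ℕ} (hk : 2 ≤ k) {C : ℝ}
    (hC : ∀ X β A R : ℝ, 1 ≤ X → 0 ≤ β → β ≤ 2 → X ^ ((k : ℝ) * kap k ^ s) ≤ R →
      (((TU k s 1 X).filter (fun u => |Ph k β u - A| ≤ R)).card : ℝ) ≤
        C * R * X ^ (-((k : ℝ) * kap k ^ s)))
    {X β A R : ℝ} (hX : 1 ≤ X) (hβ : 0 ≤ β) (hβ2 : β ≤ 2)
    (hR' : X ^ ((k : ℝ) * kap k ^ (s + 1)) ≤ R) (hR : R ≤ X ^ (k - 1)) (hC0 : 0 < C) :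
    (((TU k (s + 1) 1 X).filter (fun u => |Ph k β u - A| ≤ R)).card : ℝ) ≤
      (2 * (1 + s * 4 ^ k) + 1) * C * R * X ^ (-((k : ℝ) * kap k ^ (s + 1))) := by
  classical
  have hX0 : 0 < X := by linarith
  have hXk : 0 < X ^ (k - 1) := by positivity
  have hR0 : 0 ≤ R := (Real.rpow_nonneg hX0.le _).trans hR'
  have hY : 1 ≤ X ^ kap k := one_le_rpow_kap hk hX
  obtain ⟨K, hK⟩ : ∃ K : ℝ, K = 1 + s * 4 ^ k := ⟨_, rfl⟩
  have hK0 : 0 ≤ K := by
    rw [hK]
    positivity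
  have hexp : ∀ b : ℝ, (X ^ kap k) ^ (b * ((k : ℝ) * kap k ^ s)) =
      X ^ (b * ((k : ℝ) * kap k ^ (s + 1))) := by
    intro b
    rw [← Real.rpow_mul hX0.le]
    congr 1
    rw [pow_succ]
    ring
  have hexp1 : (X ^ kap k) ^ ((k : ℝ) * kap k ^ s) = X ^ ((k : ℝ) * kap k ^ (s + 1)) := by
    have h := hexp 1
    rwa [one_mul, one_mul] at h
  have hexp2 : (X ^ kap k) ^ (-((k : ℝ) * kap k ^ s)) = X ^ (-((k : ℝ) * kap k ^ (s + 1))) := by
    have h := hexp (-1)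
    rwa [neg_one_mul, neg_one_mul] at h
  rw [← hK]
  have h1 := card_fib ((TU k (s + 1) 1 X).filter (fun u => |Ph k β u - A| ≤ R))
    ((rg 1 X).filter (fun n : ℕ => |((n : ℝ) + β) ^ k - A| ≤ K * X ^ (k - 1)))
    (fun u => u 0) (by
      intro u hu
      obtain ⟨hu3, hu4⟩ := Finset.mem_filter.1 hu
      obtain ⟨hu5, hu6⟩ := (mem_TU_succ hX0.le).1 hu3
      refine Finset.mem_filter.2 ⟨hu5, ?_⟩
      have h2 := Ph_nonneg k hβ (Fin.tail u)
      have h3 := Ph_le k hk (le_refl (1 : ℝ)) hY hβ hβ2 hu6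
      have h4 : ((2 * (1 : ℝ) + 2) * X ^ kap k) ^ k = 4 ^ k * X ^ (k - 1) := by
        rw [mul_pow, rpow_kap_nat hk hX0.le]
        norm_num
      rw [h4] at h3
      rw [Ph_succ] at hu4
      have h5 := abs_le.1 hu4
      have h6 : K * X ^ (k - 1) = X ^ (k - 1) + s * (4 ^ k * X ^ (k - 1)) := by
        rw [hK]
        ring
      rw [abs_le, h6]
      constructor
      · linarith [h5.1]
      · linarith [h5.2, h3, h2])
    (B := C * R * X ^ (-((k : ℝ) * kap k ^ (s + 1)))) (by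
      intro n _
      have h2 : (((TU k (s + 1) 1 X).filter (fun u => |Ph k β u - A| ≤ R)).filter
          (fun u => u 0 = n)).card ≤
          ((TU k s 1 (X ^ kap k)).filter (fun u => |Ph k β u - (A - ((n : ℝ) + β) ^ k)| ≤ R)).card := by
        refine Finset.card_le_card_of_injOn (fun u => Fin.tail u) ?_ ?_
        · intro u hu
          obtain ⟨hu1, hu2⟩ := Finset.mem_filter.1 (Finset.mem_coe.1 hu)
          obtain ⟨hu3, hu4⟩ := Finset.mem_filter.1 hu1
          refine Finset.mem_coe.2 (Finset.mem_filter.2 ⟨((mem_TU_succ hX0.le).1 hu3).2, ?_⟩)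
          rw [Ph_succ, hu2] at hu4
          have e : Ph k β (Fin.tail u) - (A - ((n : ℝ) + β) ^ k) =
              ((n : ℝ) + β) ^ k + Ph k β (Fin.tail u) - A := by ring
          rw [e]
          exact hu4
        · intro u hu v hv huv
          have hu2 := (Finset.mem_filter.1 (Finset.mem_coe.1 hu)).2
          have hv2 := (Finset.mem_filter.1 (Finset.mem_coe.1 hv)).2
          have huv' : Fin.tail u = Fin.tail v := huv
          rw [← Fin.cons_self_tail u, ← Fin.cons_self_tail v, hu2, hv2, huv']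
      have h3 := hC (X ^ kap k) β (A - ((n : ℝ) + β) ^ k) R hY hβ hβ2 (by rw [hexp1]; exact hR')
      rw [hexp2] at h3
      refine le_trans ?_ h3
      exact_mod_cast h2)
  refine h1.trans ?_
  have h4 := cnt_n (k := k) (by omega) hX hβ (R := K * X ^ (k - 1)) (B := A) (by positivity)
  have h5 : 2 * (K * X ^ (k - 1)) / X ^ (k - 1) + 1 = 2 * K + 1 := by
    field_simp
  rw [h5] at h4
  calc C * R * X ^ (-((k : ℝ) * kap k ^ (s + 1))) *
        (((rg 1 X).filter (fun n : ℕ => |((n : ℝ) + β) ^ k - A| ≤ K * X ^ (k - 1))).card : ℝ) ≤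
        C * R * X ^ (-((k : ℝ) * kap k ^ (s + 1))) * (2 * K + 1) :=
        mul_le_mul_of_nonneg_left h4 (by positivity)
    _ = (2 * K + 1) * C * R * X ^ (-((k : ℝ) * kap k ^ (s + 1))) := by ring

theorem ball_one (k s : ℕ) (hk : 2 ≤ k) : ∃ C : ℝ, 0 < C ∧ ∀ X β A R : ℝ, 1 ≤ X → 0 ≤ β → β ≤ 2 →
    X ^ ((k : ℝ) * kap k ^ s) ≤ R →
    (((TU k s 1 X).filter (fun u => |Ph k β u - A| ≤ R)).card : ℝ) ≤
      C * R * X ^ (-((k : ℝ) * kap k ^ s)) := by
  induction s with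
  | zero =>
    refine ⟨1, one_pos, fun X β A R hX _ _ hR => ?_⟩
    have h1 : ((TU k 0 1 X).filter (fun u => |Ph k β u - A| ≤ R)).card ≤ 1 :=
      Finset.card_le_one_of_subsingleton _
    have h2 : (((TU k 0 1 X).filter (fun u => |Ph k β u - A| ≤ R)).card : ℝ) ≤ 1 := by
      exact_mod_cast h1
    rw [one_mul]
    exact h2.trans (L1_one hX hR)
  | succ s ih =>
    obtain ⟨C, hC0, hC⟩ := ih
    refine ⟨3 * 2 ^ s + (2 * (1 + s * 4 ^ k) + 1) * C, by positivity, fun X β A R hX hβ hβ2 hR => ?_⟩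
    have hX0 : 0 < X := by linarith
    have hR0 : 0 ≤ R := (Real.rpow_nonneg hX0.le _).trans hR
    have hp : 0 ≤ X ^ (-((k : ℝ) * kap k ^ (s + 1))) := Real.rpow_nonneg hX0.le _
    have e : (3 * 2 ^ s + (2 * (1 + s * 4 ^ k) + 1) * C) * R * X ^ (-((k : ℝ) * kap k ^ (s + 1))) =
        3 * 2 ^ s * R * X ^ (-((k : ℝ) * kap k ^ (s + 1))) +
          (2 * (1 + s * 4 ^ k) + 1) * C * R * X ^ (-((k : ℝ) * kap k ^ (s + 1))) := by ring
    rw [e]
    rcases le_total (X ^ (k - 1)) R with h | h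
    · have h1 := L1_case1 (s := s) (A := A) hk hX hβ h
      have h2 : 0 ≤ (2 * (1 + s * 4 ^ k) + 1) * C * R * X ^ (-((k : ℝ) * kap k ^ (s + 1))) := by
        positivity
      linarith
    · have h1 := L1_case2 (A := A) hk hC hX hβ hβ2 hR h hC0
      have h2 : 0 ≤ 3 * 2 ^ s * R * X ^ (-((k : ℝ) * kap k ^ (s + 1))) := by positivity
      linarith

end Pool.Agent.Lib.MP_570bef_ntSH
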