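import Mathlib
import Pool.Agent.Lib.MP_570bef_ntSH.L1

/-!
# The small ball bound for pairs
-/

set_option autoImplicit false

namespace Pool.Agent.Lib.MP_570bef_ntSH

open Finset
open Pool.Agent.Lib.MP_570bef_ntS

theorem ball_TT (k s j : ℕ) (hk : 2 ≤ k) : ∃ C : ℝ, 0 < C ∧ ∀ X β A R : ℝ, 1 ≤ X → 0 ≤ β → β ≤ 2 →
    X ^ ((k : ℝ) * kap k ^ s) ≤ R →
    (((TT k s j X).filter (fun t => |Pt k β t - A| ≤ R)).card : ℝ) ≤
      C * R * X ^ (-((k : ℝ) * kap k ^ s)) * X ^ ((k : ℝ) * (1 - kap k ^ j)) := by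
  classical
  obtain ⟨C, hC, hball⟩ := ball_one k s hk
  refine ⟨C * (2 * 8) ^ j, by positivity, fun X β A R hX hβ hβ2 hR => ?_⟩
  have hX0 : 0 < X := by linarith
  have hR0 : 0 < R := lt_of_lt_of_le (by positivity) hR
  have hfib : ∀ v ∈ TU k j 8 X,
      ((((TT k s j X).filter (fun t => |Pt k β t - A| ≤ R)).filter
        (fun t => t.2 = v)).card : ℝ) ≤ C * R * X ^ (-((k : ℝ) * kap k ^ s)) := by
    intro v hv
    refine le_trans ?_ (hball X β (A - Ph k β v) R hX hβ hβ2 hR)
    have : (((TT k s j X).filter (fun t => |Pt k β t - A| ≤ R)).filter (fun t => t.2 = v)).card ≤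
        ((TU k s 1 X).filter (fun u => |Ph k β u - (A - Ph k β v)| ≤ R)).card := by
      refine Finset.card_le_card_of_injOn (fun t => t.1) ?_ ?_
      · intro t ht
        simp only [Finset.coe_filter, Set.mem_setOf_eq, Finset.mem_filter] at ht ⊢
        obtain ⟨⟨h1, h2⟩, h3⟩ := ht
        unfold TT at h1
        rw [Finset.mem_product] at h1
        refine ⟨h1.1, ?_⟩
        unfold Pt at h2
        rw [h3] at h2
        have e : Ph k β t.1 - (A - Ph k β v) = Ph k β t.1 + Ph k β v - A := by ring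
        rw [e]
        exact h2
      · intro t ht t' ht' h
        simp only [Finset.coe_filter, Set.mem_setOf_eq, Finset.mem_filter] at ht ht'
        exact Prod.ext h (by rw [ht.2, ht'.2])
    exact_mod_cast this
  have h1 := card_fib ((TT k s j X).filter (fun t => |Pt k β t - A| ≤ R)) (TU k j 8 X)
    (fun t => t.2) (fun t ht => by
      rw [Finset.mem_filter] at ht
      have := ht.1
      unfold TT at this
      exact (Finset.mem_product.1 this).2) hfib
  have h2 := TU_card_le (s := j) hk (show (1 : ℝ) ≤ 8 by norm_num) hX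
  have h3 : 0 ≤ C * R * X ^ (-((k : ℝ) * kap k ^ s)) := by positivity
  calc (((TT k s j X).filter (fun t => |Pt k β t - A| ≤ R)).card : ℝ) ≤
        C * R * X ^ (-((k : ℝ) * kap k ^ s)) * ((TU k j 8 X).card : ℝ) := h1
    _ ≤ C * R * X ^ (-((k : ℝ) * kap k ^ s)) *
        ((2 * 8) ^ j * X ^ ((k : ℝ) * (1 - kap k ^ j))) := mul_le_mul_of_nonneg_left h2 h3
    _ = C * (2 * 8) ^ j * R * X ^ (-((k : ℝ) * kap k ^ s)) *
        X ^ ((k : ℝ) * (1 - kap k ^ j)) := by ring

end Pool.Agent.Lib.MP_570bef_ntSH
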