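import Mathlib

/-!
# JOB CountT: covering a set where a function is large (about 80 lines)

`I i = [i/n, (i+1)/n]`, `M` = the `i < n` for which `I i` meets `E` (`Finset.filter`, classical).  Every `β ∈ [0,1]` is in some `I i`, `i < n` (`i = ⌊β n⌋`; for `β = 1`: `i = n - 1`).  For `i ∈ M`, `β' ∈ I i`: `θ ≤ N β'` (`hθ` with `β ∈ E ∩ I i`, distance at most `1/n`, `I i ⊆ [0, 1]`).
So `card M * (1/n) * θ = ∑_(i ∈ M) ∫_(I i) θ ≤ ∑_(i ∈ M) ∫_(I i) N ≤ ∑_(i < n) ∫_(i/n)^((i+1)/n) N = ∫_0^1 N` (`N ≥ 0`; `intervalIntegral.sum_integral_adjacent_intervals`).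
-/

set_option autoImplicit false

namespace Pool.Agent.Lib.MP_570bef_ntSH

open MeasureTheory

theorem count_two {E : Set ℝ} {N : ℝ → ℝ} {θ : ℝ} (n : ℕ) (hn : 1 ≤ n) (hE : E ⊆ Set.Icc 0 1)
    (hN0 : ∀ β, 0 ≤ N β) (hNi : IntervalIntegrable N volume 0 1)
    (hθ : ∀ β ∈ E, ∀ β' ∈ Set.Icc (0 : ℝ) 1, |β - β'| ≤ 1 / (n : ℝ) → θ ≤ N β') :
    ∃ M : Finset ℕ, E ⊆ ⋃ i ∈ M, Set.Icc ((i : ℝ) * (1 / n)) (((i : ℝ) + 1) * (1 / n)) ∧
      (M.card : ℝ) * (1 / n) * θ ≤ ∫ β in (0 : ℝ)..1, N β := by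
  classical
  have hn0 : (0 : ℝ) < n := by exact_mod_cast hn
  have hd : (0 : ℝ) < 1 / (n : ℝ) := by positivity
  set a : ℕ → ℝ := fun i => (i : ℝ) * (1 / n) with ha
  have ha0 : a 0 = 0 := by simp [ha]
  have han : a n = 1 := by
    simp only [ha]
    field_simp
  have hstep : ∀ i, a (i + 1) = a i + 1 / n := by
    intro i
    simp only [ha]
    push_cast
    ring
  have hle : ∀ i, a i ≤ a (i + 1) := fun i => by rw [hstep]; linarith
  have hnn : ∀ i, 0 ≤ a i := fun i => by simp only [ha]; positivity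
  have hmono : Monotone a := monotone_nat_of_le_succ hle
  have hle1 : ∀ i, i < n → a (i + 1) ≤ 1 := fun i hi => by
    rw [← han]
    exact hmono hi
  have hsub : ∀ i, i < n → Set.uIcc (a i) (a (i + 1)) ⊆ Set.uIcc (0 : ℝ) 1 := by
    intro i hi
    rw [Set.uIcc_of_le (hle i), Set.uIcc_of_le zero_le_one]
    exact Set.Icc_subset_Icc (hnn i) (hle1 i hi)
  have hint : ∀ i < n, IntervalIntegrable N volume (a i) (a (i + 1)) := fun i hi =>
    hNi.mono_set (hsub i hi)
  have hcast : ∀ i : ℕ, ((i : ℝ) + 1) * (1 / n) = a (i + 1) := by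
    intro i
    simp only [ha]
    push_cast
    ring
  refine ⟨(Finset.range n).filter fun i => ∃ β ∈ E, β ∈ Set.Icc (a i) (a (i + 1)), ?_, ?_⟩
  · intro β hβ
    have hb := hE hβ
    have key : ∃ i < n, β ∈ Set.Icc (a i) (a (i + 1)) := by
      rcases hb.2.lt_or_eq with h1 | h1
      · refine ⟨⌊β * n⌋₊, ?_, ?_, ?_⟩
        · rw [Nat.floor_lt (mul_nonneg hb.1 hn0.le)]
          nlinarith
        · have h2 := Nat.floor_le (mul_nonneg hb.1 hn0.le)
          simp only [ha]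
          rw [mul_one_div, div_le_iff₀ hn0]
          exact h2
        · have h2 := (Nat.lt_floor_add_one (β * n)).le
          simp only [ha]
          rw [mul_one_div, le_div_iff₀ hn0]
          push_cast
          exact h2
      · refine ⟨n - 1, by omega, ?_, ?_⟩
        · rw [h1, ← han]
          exact hmono (by omega)
        · rw [h1, Nat.sub_add_cancel hn, han]
    obtain ⟨i, hi, hbi⟩ := key
    rw [Set.mem_iUnion₂]
    refine ⟨i, Finset.mem_filter.2 ⟨Finset.mem_range.2 hi, β, hβ, hbi⟩, ?_⟩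
    rw [hcast]
    exact hbi
  · set M := (Finset.range n).filter fun i => ∃ β ∈ E, β ∈ Set.Icc (a i) (a (i + 1)) with hM
    have h1 : ∀ i ∈ M, 1 / (n : ℝ) * θ ≤ ∫ β in (a i)..(a (i + 1)), N β := by
      intro i hi
      rw [hM, Finset.mem_filter, Finset.mem_range] at hi
      obtain ⟨hin, β, hβ, hb1, hb2⟩ := hi
      have h2 : ∫ _β in (a i)..(a (i + 1)), θ = 1 / (n : ℝ) * θ := by
        rw [intervalIntegral.integral_const, hstep, smul_eq_mul]
        ring
      rw [← h2]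
      refine intervalIntegral.integral_mono_on (hle i) intervalIntegrable_const (hint i hin) ?_
      intro x hx
      refine hθ β hβ x ⟨(hnn i).trans hx.1, hx.2.trans (hle1 i hin)⟩ ?_
      have h3 := hstep i
      rw [abs_le]
      constructor
      · linarith [hx.2]
      · linarith [hx.1]
    have h4 : ∀ i ∈ Finset.range n, i ∉ M → 0 ≤ ∫ β in (a i)..(a (i + 1)), N β := fun i _ _ =>
      intervalIntegral.integral_nonneg (hle i) fun x _ => hN0 x
    calc (M.card : ℝ) * (1 / n) * θ = ∑ _i ∈ M, 1 / (n : ℝ) * θ := by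
          rw [Finset.sum_const, nsmul_eq_mul, mul_assoc]
      _ ≤ ∑ i ∈ M, ∫ β in (a i)..(a (i + 1)), N β := Finset.sum_le_sum h1
      _ ≤ ∑ i ∈ Finset.range n, ∫ β in (a i)..(a (i + 1)), N β :=
          Finset.sum_le_sum_of_subset_of_nonneg (Finset.filter_subset _ _) h4
      _ = ∫ β in (a 0)..(a n), N β :=
          intervalIntegral.sum_integral_adjacent_intervals hint
      _ = ∫ β in (0 : ℝ)..1, N β := by rw [ha0, han]

end Pool.Agent.Lib.MP_570bef_ntSH
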