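import Mathlib
import Pool.Agent.Lib.MP_570bef_ntSH.Rec

/-!
# JOB PLa: two pairs with close power sums (about 110 lines)

`cauchy_pow`: for `x = y` take `ξ = x`.  Else the Cauchy mean value theorem (`exists_ratio_hasDerivAt_eq_ratio_slope`) for `t^k` and `t^(k-1)` between `y` and `x`: `(k - 1) t^(k-2) (x^k - y^k) = k t^(k-1) (x^(k-1) - y^(k-1))` at some `t = ξ`; divide by `ξ^(k-2) > 0`.
`pl_real`: `P = a^k - a'^k`, `Q = b^k - b'^k`, `|P + Q| ≤ K X^(k-1)`; by `cauchy_pow` `p = a^(k-1) - a'^(k-1) = ((k-1)/k) P/ξ`, `q = ((k-1)/k) Q/η` with `X ≤ ξ ≤ 4X`, `η ≥ 8X`; `|p + q| ≤ ρ` gives `|P/ξ + Q/η| ≤ (k/(k-1)) ρ ≤ 2 ρ`.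
`P (1/ξ - 1/η) = (P/ξ + Q/η) - (P + Q)/η`, so `|P|/(8X) ≤ |P| (1/ξ - 1/η) ≤ 2 ρ + K X^(k-1)/(8X)` (`1/ξ ≥ 1/(4X)`, `1/η ≤ 1/(8X)`): `|P| ≤ 16 ρ X + K X^(k-1)`.
`|a - a'| X^(k-1) ≤ |P|` (`pow_sub_ge`), divide by `X` (`X^(k-1) = X * X^(k-2)`).
-/

set_option autoImplicit false

namespace Pool.Agent.Lib.MP_570bef_ntSH

open Finset
open Pool.Agent.Lib.MP_570bef_ntS

private theorem PLa_lt (m : ℕ) {x y : ℝ} (hy : 0 < y) (hxy : y < x) :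
    ∃ ξ : ℝ, y ≤ ξ ∧ ξ ≤ x ∧
      ((m : ℝ) + 2) * ξ * (x ^ (m + 1) - y ^ (m + 1)) = ((m : ℝ) + 1) * (x ^ (m + 2) - y ^ (m + 2)) := by
  obtain ⟨ξ, hξ, h⟩ := exists_ratio_hasDerivAt_eq_ratio_slope (fun t : ℝ => t ^ (m + 2))
    (fun t : ℝ => ((m + 2 : ℕ) : ℝ) * t ^ (m + 1)) hxy (continuous_pow (m + 2)).continuousOn
    (fun t _ => hasDerivAt_pow (m + 2) t) (fun t : ℝ => t ^ (m + 1))
    (fun t : ℝ => ((m + 1 : ℕ) : ℝ) * t ^ m) (continuous_pow (m + 1)).continuousOn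
    (fun t _ => hasDerivAt_pow (m + 1) t)
  have hξ0 : 0 < ξ := hy.trans hξ.1
  refine ⟨ξ, hξ.1.le, hξ.2.le, ?_⟩
  have h2 : ξ ^ m ≠ 0 := (pow_pos hξ0 m).ne'
  apply mul_right_cancel₀ h2
  push_cast at h
  rw [pow_succ ξ m] at h
  linear_combination h

theorem cauchy_pow {k : ℕ} (hk : 2 ≤ k) {x y : ℝ} (hx : 0 < x) (hy : 0 < y) :
    ∃ ξ : ℝ, min x y ≤ ξ ∧ ξ ≤ max x y ∧
      (k : ℝ) * ξ * (x ^ (k - 1) - y ^ (k - 1)) = ((k : ℝ) - 1) * (x ^ k - y ^ k) := by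
  obtain ⟨m, rfl⟩ : ∃ m, k = m + 2 := ⟨k - 2, by omega⟩
  have e : m + 2 - 1 = m + 1 := rfl
  rw [e]
  push_cast
  rcases lt_trichotomy x y with h | h | h
  · obtain ⟨ξ, h1, h2, h3⟩ := PLa_lt m hx h
    refine ⟨ξ, ?_, ?_, ?_⟩
    · rw [min_eq_left h.le]
      exact h1
    · rw [max_eq_right h.le]
      exact h2
    · linear_combination -h3
  · subst h
    refine ⟨x, min_le_left _ _, le_max_left _ _, ?_⟩
    ring
  · obtain ⟨ξ, h1, h2, h3⟩ := PLa_lt m hy h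
    refine ⟨ξ, ?_, ?_, ?_⟩
    · rw [min_eq_right h.le]
      exact h1
    · rw [max_eq_left h.le]
      exact h2
    · linear_combination h3

private theorem PLa_abs {k : ℕ} (hk : 1 ≤ k) {x y X : ℝ} (hX : 0 ≤ X) (hx : X ≤ x) (hy : X ≤ y) :
    |x - y| * X ^ (k - 1) ≤ |x ^ k - y ^ k| := by
  rcases le_total y x with h | h
  · rw [abs_of_nonneg (sub_nonneg.2 h)]
    exact (pow_sub_ge hk hX hy h).trans (le_abs_self _)
  · rw [abs_sub_comm x y, abs_sub_comm (x ^ k) (y ^ k), abs_of_nonneg (sub_nonneg.2 h)]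
    exact (pow_sub_ge hk hX hx h).trans (le_abs_self _)

theorem pl_real {k : ℕ} (hk : 2 ≤ k) {X K ρ a a' b b' : ℝ} (hX : 0 < X) (hK : 0 ≤ K)
    (hρ : 0 ≤ ρ) (ha : X ≤ a) (ha' : X ≤ a') (ha4 : a ≤ 4 * X) (ha4' : a' ≤ 4 * X)
    (hb : 8 * X ≤ b) (hb' : 8 * X ≤ b')
    (h1 : |(a ^ k + b ^ k) - (a' ^ k + b' ^ k)| ≤ K * X ^ (k - 1))
    (h2 : |(a ^ (k - 1) + b ^ (k - 1)) - (a' ^ (k - 1) + b' ^ (k - 1))| ≤ ρ) :
    |a - a'| * X ^ (k - 2) ≤ 16 * ρ + K * X ^ (k - 2) := by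
  obtain ⟨ξ, x1, x2, x3⟩ := cauchy_pow hk (hX.trans_le ha) (hX.trans_le ha')
  obtain ⟨η, y1, _, y3⟩ := cauchy_pow hk (show 0 < b by linarith) (show 0 < b' by linarith)
  have hξ : X ≤ ξ := (le_min ha ha').trans x1
  have hξ4 : ξ ≤ 4 * X := x2.trans (max_le ha4 ha4')
  have hη : 8 * X ≤ η := (le_min hb hb').trans y1
  have hab := PLa_abs (show 1 ≤ k by omega) hX.le ha ha'
  obtain ⟨m, rfl⟩ : ∃ m, k = m + 2 := ⟨k - 2, by omega⟩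
  have e1 : m + 2 - 1 = m + 1 := rfl
  have e2 : m + 2 - 2 = m := rfl
  rw [e1] at x3 y3 h1 h2 hab
  rw [e2]
  push_cast at x3 y3
  obtain ⟨P, hP⟩ : ∃ P : ℝ, P = a ^ (m + 2) - a' ^ (m + 2) := ⟨_, rfl⟩
  obtain ⟨R, hR⟩ : ∃ R : ℝ, R = b ^ (m + 2) - b' ^ (m + 2) := ⟨_, rfl⟩
  obtain ⟨p, hp⟩ : ∃ p : ℝ, p = a ^ (m + 1) - a' ^ (m + 1) := ⟨_, rfl⟩
  obtain ⟨q, hq⟩ : ∃ q : ℝ, q = b ^ (m + 1) - b' ^ (m + 1) := ⟨_, rfl⟩
  rw [← hp, ← hP] at x3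
  rw [← hq, ← hR] at y3
  rw [← hP] at hab
  have h1' : |P + R| ≤ K * X ^ (m + 1) := by
    have e : P + R = (a ^ (m + 2) + b ^ (m + 2)) - (a' ^ (m + 2) + b' ^ (m + 2)) := by
      rw [hP, hR]
      ring
    rw [e]
    exact h1
  have h2' : |p + q| ≤ ρ := by
    have e : p + q = (a ^ (m + 1) + b ^ (m + 1)) - (a' ^ (m + 1) + b' ^ (m + 1)) := by
      rw [hp, hq]
      ring
    rw [e]
    exact h2
  have hξ0 : 0 < ξ := by linarith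
  have hη0 : 0 < η := by linarith
  have hm : (0 : ℝ) ≤ m := Nat.cast_nonneg m
  have hm1 : (0 : ℝ) < (m : ℝ) + 1 := by linarith
  -- the quotients
  have q1 : P / ξ = ((m : ℝ) + 2) / ((m : ℝ) + 1) * p := by
    rw [div_mul_eq_mul_div, div_eq_div_iff hξ0.ne' hm1.ne']
    linear_combination -x3
  have q2 : R / η = ((m : ℝ) + 2) / ((m : ℝ) + 1) * q := by
    rw [div_mul_eq_mul_div, div_eq_div_iff hη0.ne' hm1.ne']
    linear_combination -y3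
  have q3 : |P / ξ + R / η| ≤ 2 * ρ := by
    rw [q1, q2, ← mul_add, abs_mul, abs_of_nonneg (by positivity)]
    have h3 : ((m : ℝ) + 2) / ((m : ℝ) + 1) ≤ 2 := by
      rw [div_le_iff₀ hm1]
      linarith
    exact mul_le_mul h3 h2' (abs_nonneg _) (by norm_num)
  have q4 : |P| * (1 / ξ - 1 / η) ≤ 2 * ρ + K * X ^ m / 8 := by
    have h3 : 1 / η ≤ 1 / ξ := one_div_le_one_div_of_le hξ0 (by linarith)
    have h4 : |P| * (1 / ξ - 1 / η) = |(P / ξ + R / η) - (P + R) / η| := by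
      rw [← abs_of_nonneg (sub_nonneg.2 h3), ← abs_mul]
      congr 1
      ring
    rw [h4]
    refine (abs_sub _ _).trans (add_le_add q3 ?_)
    rw [abs_div, abs_of_pos hη0, div_le_iff₀ hη0]
    have h5 : K * X ^ (m + 1) ≤ K * X ^ m / 8 * η := by
      have h6 : K * X ^ m / 8 * (8 * X) ≤ K * X ^ m / 8 * η :=
        mul_le_mul_of_nonneg_left hη (by positivity)
      have h7 : K * X ^ m / 8 * (8 * X) = K * X ^ (m + 1) := by ring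
      linarith
    exact h1'.trans h5
  have q5 : 1 / (8 * X) ≤ 1 / ξ - 1 / η := by
    have h3 : 1 / (4 * X) ≤ 1 / ξ := one_div_le_one_div_of_le hξ0 hξ4
    have h4 : 1 / η ≤ 1 / (8 * X) := one_div_le_one_div_of_le (by positivity) hη
    have h5 : 1 / (4 * X) = 2 * (1 / (8 * X)) := by
      field_simp
      ring
    linarith
  have q6 : |P| * (1 / (8 * X)) ≤ 2 * ρ + K * X ^ m / 8 :=
    (mul_le_mul_of_nonneg_left q5 (abs_nonneg _)).trans q4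
  have q7 : |P| ≤ (16 * ρ + K * X ^ m) * X := by
    rw [mul_one_div, div_le_iff₀ (by positivity)] at q6
    linarith
  have q8 : |a - a'| * X ^ m * X ≤ (16 * ρ + K * X ^ m) * X := by
    have e : |a - a'| * X ^ m * X = |a - a'| * X ^ (m + 1) := by ring
    rw [e]
    exact hab.trans q7
  exact le_of_mul_le_mul_right q8 hX

end Pool.Agent.Lib.MP_570bef_ntSH
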