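import Mathlib
import Pool.Agent.Lib.MP_570bef_ntSH.PLa

/-!
# JOB PLb: counting pairs with given power sums (about 90 lines)

`S` = the set.  `card_fib` with `f z = z.1` and `T = S.image (fun z => z.1)`.
For `z, z' ∈ S`: `pl_real` with `a = z.1 + β`, `b = z.2 + β`, `a' = z'.1 + β`, `b' = z'.2 + β` (`mem_rg`: `X < z.1 ≤ 2X`, `8X < z.2`; `β ≤ 2 ≤ 2X`), `2K` and `2ρ`: `|z.1 - z'.1| ≤ 32 ρ/X^(k-2) + 2K`: `card T ≤ 32 ρ/X^(k-2) + 2K + 1` (`card_le_of_diam`).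
A fibre (fixed `z.1`): `|b^k - b'^k| ≤ 2K X^(k-1)`, so (`pow_sub_ge` with `X ≤ 8X ≤ b, b'`) `|z.2 - z'.2| ≤ 2K`: its image under `z ↦ z.2` (injective on the fibre) has at most `2K + 1` elements.
-/

set_option autoImplicit false

namespace Pool.Agent.Lib.MP_570bef_ntSH

open Finset
open Pool.Agent.Lib.MP_570bef_ntS

private theorem PLb_abs {a b A c : ℝ} (h : |a - A| ≤ c) (h' : |b - A| ≤ c) :
    |a - b| ≤ 2 * c := by
  rw [abs_le] at h h' ⊢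
  constructor <;> linarith [h.1, h.2, h'.1, h'.2]

theorem pl_count {k : ℕ} (hk : 2 ≤ k) {X K ρ β A D : ℝ} (hX : 1 ≤ X) (hK : 0 ≤ K) (hρ : 0 ≤ ρ)
    (hβ : 0 ≤ β) (hβ2 : β ≤ 2) :
    (((rg 1 X ×ˢ rg 8 X).filter (fun z : ℕ × ℕ =>
      |(((z.1 : ℝ) + β) ^ k + ((z.2 : ℝ) + β) ^ k) - A| ≤ K * X ^ (k - 1) ∧
      |(((z.1 : ℝ) + β) ^ (k - 1) + ((z.2 : ℝ) + β) ^ (k - 1)) - D| ≤ ρ)).card : ℝ) ≤
      (2 * K + 1) * (32 * ρ / X ^ (k - 2) + 2 * K + 1) := by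
  obtain ⟨S, hSdef⟩ : ∃ S, S = (rg 1 X ×ˢ rg 8 X).filter (fun z : ℕ × ℕ =>
      |(((z.1 : ℝ) + β) ^ k + ((z.2 : ℝ) + β) ^ k) - A| ≤ K * X ^ (k - 1) ∧
      |(((z.1 : ℝ) + β) ^ (k - 1) + ((z.2 : ℝ) + β) ^ (k - 1)) - D| ≤ ρ) := ⟨_, rfl⟩
  rw [← hSdef]
  have hX0 : (0 : ℝ) < X := by linarith
  have hmem : ∀ z ∈ S, X ≤ (z.1 : ℝ) + β ∧ (z.1 : ℝ) + β ≤ 4 * X ∧ 8 * X ≤ (z.2 : ℝ) + β ∧
      |(((z.1 : ℝ) + β) ^ k + ((z.2 : ℝ) + β) ^ k) - A| ≤ K * X ^ (k - 1) ∧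
      |(((z.1 : ℝ) + β) ^ (k - 1) + ((z.2 : ℝ) + β) ^ (k - 1)) - D| ≤ ρ := by
    intro z hz
    rw [hSdef, Finset.mem_filter, Finset.mem_product, mem_rg (by linarith), mem_rg (by linarith)]
      at hz
    obtain ⟨⟨⟨h1, h2⟩, h3, h4⟩, h5, h6⟩ := hz
    refine ⟨by linarith, by linarith, by linarith, h5, h6⟩
  have hXk : (0 : ℝ) < X ^ (k - 2) := pow_pos hX0 _
  have hXk1 : (0 : ℝ) < X ^ (k - 1) := pow_pos hX0 _
  have hL : (0 : ℝ) ≤ 32 * ρ / X ^ (k - 2) + 2 * K := by positivity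
  have hdiam : ∀ z ∈ S, ∀ z' ∈ S, (z.1 : ℝ) - z'.1 ≤ 32 * ρ / X ^ (k - 2) + 2 * K := by
    intro z hz z' hz'
    obtain ⟨h1, h2, h3, h4, h5⟩ := hmem z hz
    obtain ⟨g1, g2, g3, g4, g5⟩ := hmem z' hz'
    have e4 := PLb_abs h4 g4
    have e5 := PLb_abs h5 g5
    have e6 := pl_real hk hX0 (K := 2 * K) (ρ := 2 * ρ) (by linarith) (by linarith) h1 g1 h2 g2
      h3 g3 (by linarith) e5
    have e7 : |((z.1 : ℝ) + β) - ((z'.1 : ℝ) + β)| ≤ 32 * ρ / X ^ (k - 2) + 2 * K := by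
      rw [← mul_le_mul_iff_left₀ hXk, add_mul, div_mul_cancel₀ _ hXk.ne']
      linarith
    have e8 := le_trans (le_abs_self _) e7
    linarith
  have hT : ((S.image (fun z => z.1)).card : ℝ) ≤ 32 * ρ / X ^ (k - 2) + 2 * K + 1 := by
    refine card_le_of_diam _ hL ?_
    intro x hx y hy
    rw [Finset.mem_image] at hx hy
    obtain ⟨z, hz, rfl⟩ := hx
    obtain ⟨z', hz', rfl⟩ := hy
    exact hdiam z hz z' hz'
  have hfib : ∀ b ∈ S.image (fun z => z.1),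
      ((S.filter (fun z => z.1 = b)).card : ℝ) ≤ 2 * K + 1 := by
    intro b _
    have hinj : Set.InjOn (fun z : ℕ × ℕ => z.2) (S.filter (fun z => z.1 = b)) := by
      intro z hz z' hz' h
      rw [Finset.mem_coe, Finset.mem_filter] at hz hz'
      exact Prod.ext (hz.2.trans hz'.2.symm) h
    rw [← Finset.card_image_of_injOn hinj]
    refine card_le_of_diam _ (by linarith) ?_
    intro x hx y hy
    rw [Finset.mem_image] at hx hy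
    obtain ⟨z, hz, rfl⟩ := hx
    obtain ⟨z', hz', rfl⟩ := hy
    rw [Finset.mem_filter] at hz hz'
    obtain ⟨h1, h2, h3, h4, h5⟩ := hmem z hz.1
    obtain ⟨g1, g2, g3, g4, g5⟩ := hmem z' hz'.1
    have e4 := PLb_abs h4 g4
    have e1 : (z.1 : ℝ) = z'.1 := by rw [hz.2, hz'.2]
    rw [e1] at e4
    have e5 := le_trans (le_abs_self _) e4
    rcases le_total (z'.2 : ℝ) (z.2 : ℝ) with hle | hle
    · have e6 := pow_sub_ge (k := k) (x := (z.2 : ℝ) + β) (y := (z'.2 : ℝ) + β) (by omega)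
        hX0.le (by linarith) (by linarith)
      have e7 : (((z.2 : ℝ) + β) - ((z'.2 : ℝ) + β)) * X ^ (k - 1) ≤ 2 * K * X ^ (k - 1) := by
        linarith
      have e8 := le_of_mul_le_mul_right e7 hXk1
      change (z.2 : ℝ) - z'.2 ≤ 2 * K
      linarith
    · change (z.2 : ℝ) - z'.2 ≤ 2 * K
      linarith
  have hfin := card_fib S (S.image (fun z => z.1)) (fun z => z.1)
    (fun z hz => Finset.mem_image_of_mem _ hz) hfib
  exact hfin.trans (mul_le_mul_of_nonneg_left hT (by linarith))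

end Pool.Agent.Lib.MP_570bef_ntSH
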