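import Mathlib
import Pool.Agent.Lib.MP_570bef_ntSH.BallTT
import Pool.Agent.Lib.MP_570bef_ntSH.PLb

/-!
# The small ball bound for two power sums
-/

set_option autoImplicit false

namespace Pool.Agent.Lib.MP_570bef_ntSH

open Finset
open Pool.Agent.Lib.MP_570bef_ntS

private theorem L2_fib {k s j : ℕ} {X β A D ρ R : ℝ} (hX : 0 ≤ X) (x y : ℕ) :
    (((TT k (s + 1) (j + 1) X).filter (fun t => |Pt k β t - A| ≤ R ∧
      |Pt (k - 1) β t - D| ≤ ρ)).filter (fun t => (t.1 0, t.2 0) = (x, y))).card ≤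
    ((TT k s j (X ^ kap k)).filter (fun t =>
      |Pt k β t - (A - ((x : ℝ) + β) ^ k - ((y : ℝ) + β) ^ k)| ≤ R ∧
      |Pt (k - 1) β t - (D - ((x : ℝ) + β) ^ (k - 1) - ((y : ℝ) + β) ^ (k - 1))| ≤ ρ)).card := by
  refine Finset.card_le_card_of_injOn (fun t => (Fin.tail t.1, Fin.tail t.2)) ?_ ?_
  · intro t ht
    simp only [Finset.mem_coe, Finset.mem_filter, Prod.mk.injEq] at ht ⊢
    obtain ⟨⟨h1, h2, h3⟩, h4, h5⟩ := ht
    rw [mem_TT_succ hX] at h1
    rw [Pt_succ, h4, h5] at h2 h3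
    refine ⟨h1.2, ?_, ?_⟩
    · have e : Pt k β (Fin.tail t.1, Fin.tail t.2) -
          (A - ((x : ℝ) + β) ^ k - ((y : ℝ) + β) ^ k) =
          ((x : ℝ) + β) ^ k + ((y : ℝ) + β) ^ k + Pt k β (Fin.tail t.1, Fin.tail t.2) - A := by
        ring
      rw [e]
      exact h2
    · have e : Pt (k - 1) β (Fin.tail t.1, Fin.tail t.2) -
          (D - ((x : ℝ) + β) ^ (k - 1) - ((y : ℝ) + β) ^ (k - 1)) =
          ((x : ℝ) + β) ^ (k - 1) + ((y : ℝ) + β) ^ (k - 1) +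
            Pt (k - 1) β (Fin.tail t.1, Fin.tail t.2) - D := by
        ring
      rw [e]
      exact h3
  · intro t ht t' ht' h
    simp only [Finset.mem_coe, Finset.mem_filter, Prod.mk.injEq] at ht ht' h
    refine Prod.ext ?_ ?_
    · rw [← Fin.cons_self_tail t.1, ← Fin.cons_self_tail t'.1, h.1, ht.2.1, ht'.2.1]
    · rw [← Fin.cons_self_tail t.2, ← Fin.cons_self_tail t'.2, h.2, ht.2.2, ht'.2.2]

private theorem L2_T {k s j : ℕ} (hk : 2 ≤ k) {X β A D ρ K : ℝ} (hX : 1 ≤ X) (hβ : 0 ≤ β)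
    (hβ2 : β ≤ 2) (hK : K = 1 + ((s : ℝ) + j) * 18 ^ k)
    {t : (Fin (s + 1) → ℕ) × (Fin (j + 1) → ℕ)} (ht : t ∈ TT k (s + 1) (j + 1) X)
    (h1 : |Pt k β t - A| ≤ X ^ ((k : ℝ) * kap k ^ (s + 1))) (h2 : |Pt (k - 1) β t - D| ≤ ρ) :
    (t.1 0, t.2 0) ∈ (rg 1 X ×ˢ rg 8 X).filter (fun z : ℕ × ℕ =>
      |(((z.1 : ℝ) + β) ^ k + ((z.2 : ℝ) + β) ^ k) - A| ≤ K * X ^ (k - 1) ∧
      |(((z.1 : ℝ) + β) ^ (k - 1) + ((z.2 : ℝ) + β) ^ (k - 1)) - D| ≤
        ρ + K * X ^ (((k : ℝ) - 1) * kap k)) := by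
  have hX0 : 0 < X := by linarith
  have hk1 : (2 : ℝ) ≤ k := by exact_mod_cast hk
  have hY : 1 ≤ X ^ kap k := one_le_rpow_kap hk hX
  rw [mem_TT_succ hX0.le] at ht
  obtain ⟨h3, h4⟩ := ht
  have h5 := Pt_nonneg k hβ (Fin.tail t.1, Fin.tail t.2)
  have h6 := Pt_nonneg (k - 1) hβ (Fin.tail t.1, Fin.tail t.2)
  have h7 := Pt_le k hk hY hβ hβ2 h4
  have h8 := Pt_le (k - 1) hk hY hβ hβ2 h4
  have h9 : (18 * X ^ kap k) ^ k = 18 ^ k * X ^ (k - 1) := by
    rw [mul_pow, rpow_kap_nat hk hX0.le]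
  have h10 : (18 * X ^ kap k) ^ (k - 1) = 18 ^ (k - 1) * X ^ (((k : ℝ) - 1) * kap k) := by
    rw [mul_pow]
    congr 1
    rw [← Real.rpow_natCast, ← Real.rpow_mul hX0.le, mul_comm]
    congr 2
    push_cast [Nat.cast_sub (show 1 ≤ k by omega)]
    ring
  have h11 : X ^ ((k : ℝ) * kap k ^ (s + 1)) ≤ X ^ (k - 1) := by
    rw [k_kap_succ hk, ← Real.rpow_natCast X (k - 1)]
    refine Real.rpow_le_rpow_of_exponent_le hX ?_
    push_cast [Nat.cast_sub (show 1 ≤ k by omega)]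
    exact mul_le_of_le_one_right (by linarith) (kap_pow_le_one hk s)
  have h12 : ((s : ℝ) + j) * (18 ^ (k - 1) * X ^ (((k : ℝ) - 1) * kap k)) ≤
      K * X ^ (((k : ℝ) - 1) * kap k) := by
    rw [← mul_assoc]
    refine mul_le_mul_of_nonneg_right ?_ (by positivity)
    have : (18 : ℝ) ^ (k - 1) ≤ 18 ^ k := pow_le_pow_right₀ (by norm_num) (by omega)
    have h13 : ((s : ℝ) + j) * 18 ^ (k - 1) ≤ ((s : ℝ) + j) * 18 ^ k :=
      mul_le_mul_of_nonneg_left this (by positivity)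
    linarith
  rw [h9] at h7
  rw [h10] at h8
  rw [Pt_succ] at h1 h2
  rw [Finset.mem_filter, Finset.mem_product]
  refine ⟨h3, ?_, ?_⟩
  · have h13 : K * X ^ (k - 1) = X ^ (k - 1) + ((s : ℝ) + j) * (18 ^ k * X ^ (k - 1)) := by
      rw [hK]
      ring
    rw [abs_le] at h1 ⊢
    constructor <;> linarith [h1.1, h1.2]
  · rw [abs_le] at h2 ⊢
    have h14 : 0 ≤ K * X ^ (((k : ℝ) - 1) * kap k) := by
      rw [hK]
      positivity
    constructor <;> linarith [h2.1, h2.2]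

private theorem L2_exp {k : ℕ} (hk : 2 ≤ k) {X : ℝ} (hX : 1 ≤ X) :
    X ^ (((k : ℝ) - 1) * kap k) = X ^ (1 - kap k) * X ^ (k - 2) := by
  have hX0 : 0 < X := by linarith
  have h : (k : ℝ) * kap k = k - 1 := k_mul_kap hk
  rw [← Real.rpow_natCast X (k - 2), ← Real.rpow_add hX0]
  congr 1
  push_cast [Nat.cast_sub hk]
  linarith

theorem ball_two (k s j : ℕ) (hk : 2 ≤ k) (hjs : j ≤ s) : ∃ C : ℝ, 0 < C ∧
    ∀ X β A D ρ : ℝ, 1 ≤ X → 0 ≤ β → β ≤ 2 → X ^ (((k : ℝ) - 1) * kap k ^ j) ≤ ρ →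
    (((TT k s j X).filter (fun t => |Pt k β t - A| ≤ X ^ ((k : ℝ) * kap k ^ s) ∧
      |Pt (k - 1) β t - D| ≤ ρ)).card : ℝ) ≤ C * ρ * X ^ (1 - (k : ℝ) * kap k ^ j) := by
  induction j generalizing s with
  | zero =>
    obtain ⟨C, hC, h⟩ := ball_TT k s 0 hk
    refine ⟨C, hC, fun X β A D ρ hX hβ hβ2 hρ => ?_⟩
    have hX0 : 0 < X := by linarith
    have h1 := h X β A (X ^ ((k : ℝ) * kap k ^ s)) hX hβ hβ2 le_rfl
    have h2 : (((TT k s 0 X).filter (fun t => |Pt k β t - A| ≤ X ^ ((k : ℝ) * kap k ^ s) ∧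
      |Pt (k - 1) β t - D| ≤ ρ)).card : ℝ) ≤
        (((TT k s 0 X).filter (fun t => |Pt k β t - A| ≤ X ^ ((k : ℝ) * kap k ^ s))).card : ℝ) := by
      have : ((TT k s 0 X).filter (fun t => |Pt k β t - A| ≤ X ^ ((k : ℝ) * kap k ^ s) ∧
          |Pt (k - 1) β t - D| ≤ ρ)).card ≤
          ((TT k s 0 X).filter (fun t => |Pt k β t - A| ≤ X ^ ((k : ℝ) * kap k ^ s))).card := by
        refine Finset.card_le_card fun t ht => ?_
        rw [Finset.mem_filter] at ht ⊢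
        exact ⟨ht.1, ht.2.1⟩
      exact_mod_cast this
    have h3 : C * X ^ ((k : ℝ) * kap k ^ s) * X ^ (-((k : ℝ) * kap k ^ s)) *
        X ^ ((k : ℝ) * (1 - kap k ^ 0)) = C := by
      rw [mul_assoc C, ← Real.rpow_add hX0]
      simp
    rw [h3] at h1
    have h4 : 1 ≤ ρ * X ^ (1 - (k : ℝ) * kap k ^ 0) := by
      rw [pow_zero, mul_one] at hρ ⊢
      calc (1 : ℝ) = X ^ ((k : ℝ) - 1) * X ^ (1 - (k : ℝ)) := by
            rw [← Real.rpow_add hX0]
            simp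
        _ ≤ ρ * X ^ (1 - (k : ℝ)) := mul_le_mul_of_nonneg_right hρ (by positivity)
    calc _ ≤ C := h2.trans h1
      _ ≤ C * (ρ * X ^ (1 - (k : ℝ) * kap k ^ 0)) := le_mul_of_one_le_right hC.le h4
      _ = C * ρ * X ^ (1 - (k : ℝ) * kap k ^ 0) := by ring
  | succ j ih =>
    obtain ⟨s, rfl⟩ : ∃ s', s = s' + 1 := ⟨s - 1, by omega⟩
    obtain ⟨C0, hC0, h0⟩ := ih s (by omega)
    obtain ⟨C1, hC1, h1⟩ := ball_TT k s j hk
    set K : ℝ := 1 + ((s : ℝ) + j) * 18 ^ k with hK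
    have hK0 : 1 ≤ K := by
      have : 0 ≤ ((s : ℝ) + j) * 18 ^ k := by positivity
      linarith
    refine ⟨(C0 + C1) * ((2 * K + 1) * (34 * K + 33)), by positivity,
      fun X β A D ρ hX hβ hβ2 hρ => ?_⟩
    have hX0 : 0 < X := by linarith
    have hk1 : (2 : ℝ) ≤ k := by exact_mod_cast hk
    have hY : 1 ≤ X ^ kap k := one_le_rpow_kap hk hX
    have hY0 : 0 < X ^ kap k := by linarith
    have hkk : (k : ℝ) * kap k = k - 1 := k_mul_kap hk
    have hρ0 : 0 < ρ := lt_of_lt_of_le (by positivity) hρ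
    set E : ℝ := X ^ (((k : ℝ) - 1) * kap k) with hE
    have hE0 : 0 < E := by positivity
    set H : ℝ := X ^ (1 - kap k) with hH
    have hH1 : 1 ≤ H := Real.one_le_rpow hX (by linarith [kap_lt_one hk])
    have hEH : E = H * X ^ (k - 2) := L2_exp hk hX
    have hP : 0 < X ^ (k - 2) := by positivity
    have hρ' : 0 ≤ ρ + K * E := by positivity
    set T := (rg 1 X ×ˢ rg 8 X).filter (fun z : ℕ × ℕ =>
      |(((z.1 : ℝ) + β) ^ k + ((z.2 : ℝ) + β) ^ k) - A| ≤ K * X ^ (k - 1) ∧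
      |(((z.1 : ℝ) + β) ^ (k - 1) + ((z.2 : ℝ) + β) ^ (k - 1)) - D| ≤ ρ + K * E) with hT
    have hcT : (T.card : ℝ) ≤ (2 * K + 1) * (32 * (ρ + K * E) / X ^ (k - 2) + 2 * K + 1) :=
      pl_count hk hX (by linarith) hρ' hβ hβ2
    have hmaps : ∀ t ∈ (TT k (s + 1) (j + 1) X).filter (fun t =>
        |Pt k β t - A| ≤ X ^ ((k : ℝ) * kap k ^ (s + 1)) ∧ |Pt (k - 1) β t - D| ≤ ρ),
        (t.1 0, t.2 0) ∈ T := by
      intro t ht
      rw [Finset.mem_filter] at ht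
      exact L2_T hk hX hβ hβ2 hK ht.1 ht.2.1 ht.2.2
    have hYs : X ^ ((k : ℝ) * kap k ^ (s + 1)) = (X ^ kap k) ^ ((k : ℝ) * kap k ^ s) := by
      rw [← Real.rpow_mul hX0.le]
      congr 1
      ring
    rcases le_or_gt ρ E with hc | hc
    · -- small `ρ`
      have hfib : ∀ z ∈ T, ((((TT k (s + 1) (j + 1) X).filter (fun t =>
          |Pt k β t - A| ≤ X ^ ((k : ℝ) * kap k ^ (s + 1)) ∧
          |Pt (k - 1) β t - D| ≤ ρ)).filter (fun t => (t.1 0, t.2 0) = z)).card : ℝ) ≤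
          C0 * ρ * (X ^ kap k) ^ (1 - (k : ℝ) * kap k ^ j) := by
        rintro ⟨x, y⟩ _
        have h2 := L2_fib (k := k) (s := s) (j := j) (β := β) (A := A) (D := D) (ρ := ρ)
          (R := X ^ ((k : ℝ) * kap k ^ (s + 1))) hX0.le x y
        have h3 := h0 (X ^ kap k) β (A - ((x : ℝ) + β) ^ k - ((y : ℝ) + β) ^ k)
          (D - ((x : ℝ) + β) ^ (k - 1) - ((y : ℝ) + β) ^ (k - 1)) ρ hY hβ hβ2 (by
            rw [← Real.rpow_mul hX0.le]
            refine le_trans (le_of_eq ?_) hρ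
            congr 1
            ring)
        rw [hYs] at h2 ⊢
        refine le_trans ?_ h3
        exact_mod_cast h2
      have h4 := card_fib ((TT k (s + 1) (j + 1) X).filter (fun t =>
        |Pt k β t - A| ≤ X ^ ((k : ℝ) * kap k ^ (s + 1)) ∧ |Pt (k - 1) β t - D| ≤ ρ)) T
        (fun t : (Fin (s + 1) → ℕ) × (Fin (j + 1) → ℕ) => (t.1 0, t.2 0)) hmaps hfib
      have h5 : (T.card : ℝ) ≤ (2 * K + 1) * (34 * K + 33) * H := by
        refine hcT.trans ?_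
        have h6 : 32 * (ρ + K * E) / X ^ (k - 2) ≤ 32 * (1 + K) * H := by
          rw [div_le_iff₀ hP]
          have : 32 * (1 + K) * H * X ^ (k - 2) = 32 * (1 + K) * E := by rw [hEH]; ring
          rw [this]
          linarith
        rw [mul_assoc]
        refine mul_le_mul_of_nonneg_left ?_ (by linarith)
        have h9 : 0 ≤ (2 * K + 1) * (H - 1) := mul_nonneg (by linarith) (by linarith)
        linarith
      have h7 : H * (X ^ kap k) ^ (1 - (k : ℝ) * kap k ^ j) =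
          X ^ (1 - (k : ℝ) * kap k ^ (j + 1)) := by
        rw [hH, ← Real.rpow_mul hX0.le, ← Real.rpow_add hX0]
        congr 1
        ring
      calc _ ≤ C0 * ρ * (X ^ kap k) ^ (1 - (k : ℝ) * kap k ^ j) * (T.card : ℝ) := h4
        _ ≤ C0 * ρ * (X ^ kap k) ^ (1 - (k : ℝ) * kap k ^ j) *
            ((2 * K + 1) * (34 * K + 33) * H) := mul_le_mul_of_nonneg_left h5 (by positivity)
        _ = C0 * ((2 * K + 1) * (34 * K + 33)) * ρ *
            (H * (X ^ kap k) ^ (1 - (k : ℝ) * kap k ^ j)) := by ring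
        _ = C0 * ((2 * K + 1) * (34 * K + 33)) * ρ * X ^ (1 - (k : ℝ) * kap k ^ (j + 1)) := by
          rw [h7]
        _ ≤ (C0 + C1) * ((2 * K + 1) * (34 * K + 33)) * ρ *
            X ^ (1 - (k : ℝ) * kap k ^ (j + 1)) := by
          have : C0 * ((2 * K + 1) * (34 * K + 33)) ≤
              (C0 + C1) * ((2 * K + 1) * (34 * K + 33)) :=
            mul_le_mul_of_nonneg_right (by linarith) (by positivity)
          gcongr
    · -- large `ρ`
      have hfib : ∀ z ∈ T, ((((TT k (s + 1) (j + 1) X).filter (fun t =>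
          |Pt k β t - A| ≤ X ^ ((k : ℝ) * kap k ^ (s + 1)) ∧
          |Pt (k - 1) β t - D| ≤ ρ)).filter (fun t => (t.1 0, t.2 0) = z)).card : ℝ) ≤
          C1 * (X ^ kap k) ^ ((k : ℝ) * (1 - kap k ^ j)) := by
        rintro ⟨x, y⟩ _
        have h2 := L2_fib (k := k) (s := s) (j := j) (β := β) (A := A) (D := D) (ρ := ρ)
          (R := X ^ ((k : ℝ) * kap k ^ (s + 1))) hX0.le x y
        have h3 := h1 (X ^ kap k) β (A - ((x : ℝ) + β) ^ k - ((y : ℝ) + β) ^ k)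
          ((X ^ kap k) ^ ((k : ℝ) * kap k ^ s)) hY hβ hβ2 le_rfl
        have h4 : C1 * (X ^ kap k) ^ ((k : ℝ) * kap k ^ s) *
            (X ^ kap k) ^ (-((k : ℝ) * kap k ^ s)) *
            (X ^ kap k) ^ ((k : ℝ) * (1 - kap k ^ j)) =
            C1 * (X ^ kap k) ^ ((k : ℝ) * (1 - kap k ^ j)) := by
          rw [mul_assoc C1, ← Real.rpow_add hY0]
          simp
        rw [h4] at h3
        rw [hYs] at h2 ⊢
        refine le_trans ?_ h3
        have h5 : ((TT k s j (X ^ kap k)).filter (fun t =>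
            |Pt k β t - (A - ((x : ℝ) + β) ^ k - ((y : ℝ) + β) ^ k)| ≤
              (X ^ kap k) ^ ((k : ℝ) * kap k ^ s) ∧
            |Pt (k - 1) β t - (D - ((x : ℝ) + β) ^ (k - 1) - ((y : ℝ) + β) ^ (k - 1))| ≤
              ρ)).card ≤ ((TT k s j (X ^ kap k)).filter (fun t =>
            |Pt k β t - (A - ((x : ℝ) + β) ^ k - ((y : ℝ) + β) ^ k)| ≤
              (X ^ kap k) ^ ((k : ℝ) * kap k ^ s))).card := by
          refine Finset.card_le_card fun t ht => ?_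
          rw [Finset.mem_filter] at ht ⊢
          exact ⟨ht.1, ht.2.1⟩
        exact_mod_cast h2.trans h5
      have h4 := card_fib ((TT k (s + 1) (j + 1) X).filter (fun t =>
        |Pt k β t - A| ≤ X ^ ((k : ℝ) * kap k ^ (s + 1)) ∧ |Pt (k - 1) β t - D| ≤ ρ)) T
        (fun t : (Fin (s + 1) → ℕ) × (Fin (j + 1) → ℕ) => (t.1 0, t.2 0)) hmaps hfib
      have h5 : (T.card : ℝ) ≤ (2 * K + 1) * (34 * K + 33) * (ρ / X ^ (k - 2)) := by
        refine hcT.trans ?_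
        have h6 : 32 * (ρ + K * E) / X ^ (k - 2) ≤ 32 * (1 + K) * (ρ / X ^ (k - 2)) := by
          rw [← mul_div_assoc]
          refine div_le_div_of_nonneg_right ?_ hP.le
          have h9 : 0 ≤ K * (ρ - E) := mul_nonneg (by linarith) (by linarith)
          linarith
        have h8 : 1 ≤ ρ / X ^ (k - 2) := by
          rw [le_div_iff₀ hP]
          have h9 : 0 ≤ (H - 1) * X ^ (k - 2) := mul_nonneg (by linarith) hP.le
          linarith
        rw [mul_assoc]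
        refine mul_le_mul_of_nonneg_left ?_ (by linarith)
        have h9 : 0 ≤ (2 * K + 1) * (ρ / X ^ (k - 2) - 1) := mul_nonneg (by linarith) (by linarith)
        linarith
      have h7 : (X ^ (k - 2))⁻¹ * (X ^ kap k) ^ ((k : ℝ) * (1 - kap k ^ j)) =
          X ^ (1 - (k : ℝ) * kap k ^ (j + 1)) := by
        rw [← Real.rpow_natCast X (k - 2), ← Real.rpow_neg hX0.le, ← Real.rpow_mul hX0.le,
          ← Real.rpow_add hX0]
        congr 1
        push_cast [Nat.cast_sub hk]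
        linear_combination (1 : ℝ) * hkk
      calc _ ≤ C1 * (X ^ kap k) ^ ((k : ℝ) * (1 - kap k ^ j)) * (T.card : ℝ) := h4
        _ ≤ C1 * (X ^ kap k) ^ ((k : ℝ) * (1 - kap k ^ j)) *
            ((2 * K + 1) * (34 * K + 33) * (ρ / X ^ (k - 2))) :=
          mul_le_mul_of_nonneg_left h5 (by positivity)
        _ = C1 * ((2 * K + 1) * (34 * K + 33)) * ρ *
            ((X ^ (k - 2))⁻¹ * (X ^ kap k) ^ ((k : ℝ) * (1 - kap k ^ j))) := by
          rw [div_eq_mul_inv]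
          ring
        _ = C1 * ((2 * K + 1) * (34 * K + 33)) * ρ * X ^ (1 - (k : ℝ) * kap k ^ (j + 1)) := by
          rw [h7]
        _ ≤ (C0 + C1) * ((2 * K + 1) * (34 * K + 33)) * ρ *
            X ^ (1 - (k : ℝ) * kap k ^ (j + 1)) := by
          have : C1 * ((2 * K + 1) * (34 * K + 33)) ≤
              (C0 + C1) * ((2 * K + 1) * (34 * K + 33)) :=
            mul_le_mul_of_nonneg_right (by linarith) (by positivity)
          gcongr

end Pool.Agent.Lib.MP_570bef_ntSH
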