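import Mathlib
import Pool.Agent.Lib.MP_570bef_ntSH.L2

/-!
# JOB Counts: counting pairs of elements (about 120 lines)

`NN_le`: `card_fib` for the set of `z = (t, t')` (in the definition of `NN`) with `f z = z.1`, `T = TT k s j X`: the fibre over `t` injects by `z ↦ z.2` into the `t'` with `|Pt k β t' - Pt k β t| ≤ R`: `ball_TT`: at most `C R X^(-k κ^s) X^(k (1 - κ^j))`.  And `X^(-k κ^s + k (1 - κ^j)) = X^(-k) X^(k (1 - κ^s) + k (1 - κ^j)) ≤ 2^(s+j) X^(-k) card TT` (`TT_card_ge`).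
`N2_le`: `card_fib` in the same way: for fixed `t` the `t'` satisfy `|Pt k β t' - Pt k β t| ≤ δ ≤ X^(k κ^s)` and `|Pt (k-1) β t' - Pt (k-1) β t| ≤ ρ/k ≤ ρ`: `ball_two`.
-/

set_option autoImplicit false

namespace Pool.Agent.Lib.MP_570bef_ntSH

open Finset
open Pool.Agent.Lib.MP_570bef_ntS

private theorem Counts_fib {α : Type*} [DecidableEq α] (T : Finset α) (p : α × α → Prop)
    [DecidablePred p] (q : α → α → Prop) [∀ t, DecidablePred (q t)] {B : ℝ}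
    (hq : ∀ t t', p (t, t') → q t t')
    (hB : ∀ t ∈ T, ((T.filter (q t)).card : ℝ) ≤ B) :
    (((T ×ˢ T).filter p).card : ℝ) ≤ B * T.card := by
  refine card_fib _ T Prod.fst (fun a ha => (mem_product.1 (mem_filter.1 ha).1).1) ?_
  intro t ht
  refine le_trans ?_ (hB t ht)
  have h : (((T ×ˢ T).filter p).filter (fun a => a.1 = t)).card ≤ (T.filter (q t)).card := by
    refine Finset.card_le_card_of_injOn Prod.snd ?_ ?_
    · intro a ha
      have ha' := mem_filter.1 (mem_coe.1 ha)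
      have ha2 := mem_filter.1 ha'.1
      refine mem_coe.2 (mem_filter.2 ⟨(mem_product.1 ha2.1).2, ?_⟩)
      apply hq
      have h3 : (t, a.2) = a := by
        rw [← ha'.2]
      rw [h3]
      exact ha2.2
    · intro a ha b hb hab
      have ha' := mem_filter.1 (mem_coe.1 ha)
      have hb' := mem_filter.1 (mem_coe.1 hb)
      exact Prod.ext (ha'.2.trans hb'.2.symm) hab
  exact_mod_cast h

theorem NN_le (k s j : ℕ) (hk : 2 ≤ k) : ∃ C : ℝ, 0 < C ∧ ∀ X β R : ℝ, 1 ≤ X → 0 ≤ β → β ≤ 2 →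
    X ^ ((k : ℝ) * kap k ^ s) ≤ R →
    (NN k s j β R X : ℝ) ≤ C * ((TT k s j X).card : ℝ) ^ 2 * R * X ^ (-(k : ℝ)) := by
  classical
  obtain ⟨C, hC, hball⟩ := ball_TT k s j hk
  refine ⟨C * 2 ^ (s + j), by positivity, ?_⟩
  intro X β R hX hβ hβ2 hR
  have hX0 : 0 < X := lt_of_lt_of_le one_pos hX
  have hR0 : 0 < R := lt_of_lt_of_le (Real.rpow_pos_of_pos hX0 _) hR
  have h1 : (NN k s j β R X : ℝ) ≤ (C * R * X ^ (-((k : ℝ) * kap k ^ s)) *
      X ^ ((k : ℝ) * (1 - kap k ^ j))) * (TT k s j X).card := by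
    unfold NN
    refine Counts_fib (TT k s j X) _ (fun t t' => |Pt k β t' - Pt k β t| ≤ R) ?_ ?_
    · intro t t' h
      rw [abs_sub_comm]
      exact h
    · intro t _
      exact hball X β (Pt k β t) R hX hβ hβ2 hR
  have h2 := TT_card_ge (s := s) (j := j) hk hX
  have h3 : X ^ (-((k : ℝ) * kap k ^ s)) * X ^ ((k : ℝ) * (1 - kap k ^ j)) =
      X ^ (-(k : ℝ)) * X ^ ((k : ℝ) * (1 - kap k ^ s) + (k : ℝ) * (1 - kap k ^ j)) := by
    rw [← Real.rpow_add hX0, ← Real.rpow_add hX0]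
    congr 1
    ring
  have h4 : X ^ ((k : ℝ) * (1 - kap k ^ s) + (k : ℝ) * (1 - kap k ^ j)) ≤
      2 ^ (s + j) * ((TT k s j X).card : ℝ) := by
    have h5 : (2 : ℝ) ^ (s + j) * ((1 / 2) ^ (s + j) *
        X ^ ((k : ℝ) * (1 - kap k ^ s) + (k : ℝ) * (1 - kap k ^ j))) =
        X ^ ((k : ℝ) * (1 - kap k ^ s) + (k : ℝ) * (1 - kap k ^ j)) := by
      rw [← mul_assoc, ← mul_pow]
      norm_num
    rw [← h5]
    exact mul_le_mul_of_nonneg_left h2 (by positivity)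
  calc (NN k s j β R X : ℝ) ≤ (C * R * X ^ (-((k : ℝ) * kap k ^ s)) *
      X ^ ((k : ℝ) * (1 - kap k ^ j))) * (TT k s j X).card := h1
    _ = C * R * (X ^ (-((k : ℝ) * kap k ^ s)) * X ^ ((k : ℝ) * (1 - kap k ^ j))) *
        (TT k s j X).card := by ring
    _ = C * R * X ^ (-(k : ℝ)) * (TT k s j X).card *
        X ^ ((k : ℝ) * (1 - kap k ^ s) + (k : ℝ) * (1 - kap k ^ j)) := by
        rw [h3]
        ring
    _ ≤ C * R * X ^ (-(k : ℝ)) * (TT k s j X).card * (2 ^ (s + j) * ((TT k s j X).card : ℝ)) :=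
        mul_le_mul_of_nonneg_left h4 (by positivity)
    _ = C * 2 ^ (s + j) * ((TT k s j X).card : ℝ) ^ 2 * R * X ^ (-(k : ℝ)) := by ring

theorem N2_le (k s j : ℕ) (hk : 2 ≤ k) (hjs : j ≤ s) : ∃ C : ℝ, 0 < C ∧
    ∀ X β ρ δ : ℝ, 1 ≤ X → 0 ≤ β → β ≤ 2 → δ ≤ X ^ ((k : ℝ) * kap k ^ s) →
    X ^ (((k : ℝ) - 1) * kap k ^ j) ≤ ρ →
    (((TT k s j X ×ˢ TT k s j X).filter
      (fun z => |Pt k β z.1 - Pt k β z.2| ≤ δ ∧
        |(k : ℝ) * (Pt (k - 1) β z.1 - Pt (k - 1) β z.2)| ≤ ρ)).card : ℝ) ≤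
      C * ((TT k s j X).card : ℝ) * ρ * X ^ (1 - (k : ℝ) * kap k ^ j) := by
  classical
  obtain ⟨C, hC, hball⟩ := ball_two k s j hk hjs
  refine ⟨C, hC, ?_⟩
  intro X β ρ δ hX hβ hβ2 hδ hρ
  have hX0 : 0 < X := lt_of_lt_of_le one_pos hX
  have hρ0 : 0 < ρ := lt_of_lt_of_le (Real.rpow_pos_of_pos hX0 _) hρ
  have hk1 : (1 : ℝ) ≤ k := by
    have : 1 ≤ k := by omega
    exact_mod_cast this
  have h1 := Counts_fib (TT k s j X)
    (fun z => |Pt k β z.1 - Pt k β z.2| ≤ δ ∧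
        |(k : ℝ) * (Pt (k - 1) β z.1 - Pt (k - 1) β z.2)| ≤ ρ)
    (fun t t' => |Pt k β t' - Pt k β t| ≤ X ^ ((k : ℝ) * kap k ^ s) ∧
      |Pt (k - 1) β t' - Pt (k - 1) β t| ≤ ρ)
    (B := C * ρ * X ^ (1 - (k : ℝ) * kap k ^ j)) (fun t t' h => by
      refine ⟨?_, ?_⟩
      · rw [abs_sub_comm]
        exact h.1.trans hδ
      · rw [abs_sub_comm]
        have h2 := h.2
        rw [abs_mul, abs_of_nonneg (by linarith : (0 : ℝ) ≤ k)] at h2
        exact (le_mul_of_one_le_left (abs_nonneg _) hk1).trans h2)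
    (fun t _ => hball X β (Pt k β t) (Pt (k - 1) β t) ρ hX hβ hβ2 hρ)
  refine h1.trans (le_of_eq ?_)
  ring

end Pool.Agent.Lib.MP_570bef_ntSH
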