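import Mathlib
import Pool.Agent.Lib.MP_570bef_ntSH.Rec

/-!
# JOB Der: the derivatives in the shift (about 90 lines)

Derivative of `(n + β)^(d+1)` in `β` is `(d+1) (n + β)^d`; sums (`HasDerivAt.fun_sum` or `HasDerivAt.sum`).
`F1_bound`, `F2_bound`: for `t, t' ∈ TT k s j X` both power sums are in `[0, (s + j) (18 X)^d]` (`Pt_nonneg`, `Pt_le`), so the difference is at most this in absolute value; `WW`, `MM` are in `Defs` (`k (k-1) ≤ k^2`).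
-/

set_option autoImplicit false

namespace Pool.Agent.Lib.MP_570bef_ntSH

open Finset
open Pool.Agent.Lib.MP_570bef_ntS

theorem Ph_der (d : ℕ) {s : ℕ} (u : Fin s → ℕ) (β : ℝ) :
    HasDerivAt (fun β => Ph (d + 1) β u) (((d : ℝ) + 1) * Ph d β u) β := by
  have h : ∀ i ∈ (Finset.univ : Finset (Fin s)),
      HasDerivAt (fun β : ℝ => ((u i : ℝ) + β) ^ (d + 1)) (((d : ℝ) + 1) * ((u i : ℝ) + β) ^ d) β := by
    intro i _
    have h1 : HasDerivAt (fun β : ℝ => (u i : ℝ) + β) 1 β := (hasDerivAt_id β).const_add _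
    have h2 := h1.fun_pow (d + 1)
    have e : ((d + 1 : ℕ) : ℝ) * ((u i : ℝ) + β) ^ (d + 1 - 1) * 1 =
        ((d : ℝ) + 1) * ((u i : ℝ) + β) ^ d := by
      rw [Nat.add_sub_cancel]
      push_cast
      ring
    rw [← e]
    exact h2
  have h3 := HasDerivAt.fun_sum h
  unfold Ph
  rw [Finset.mul_sum]
  exact h3

theorem Pt_der (d : ℕ) {s j : ℕ} (t : (Fin s → ℕ) × (Fin j → ℕ)) (β : ℝ) :
    HasDerivAt (fun β => Pt (d + 1) β t) (((d : ℝ) + 1) * Pt d β t) β := by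
  have h := (Ph_der d t.1 β).fun_add (Ph_der d t.2 β)
  unfold Pt
  rw [mul_add]
  exact h

theorem Pt_cont (d : ℕ) {s j : ℕ} (t : (Fin s → ℕ) × (Fin j → ℕ)) :
    Continuous (fun β => Pt d β t) := by
  unfold Pt Ph
  fun_prop

private theorem der_pt {k : ℕ} (hk : 1 ≤ k) {s j : ℕ} (t : (Fin s → ℕ) × (Fin j → ℕ)) (β : ℝ) :
    HasDerivAt (fun β => Pt k β t) ((k : ℝ) * Pt (k - 1) β t) β := by
  obtain ⟨m, rfl⟩ : ∃ m, k = m + 1 := ⟨k - 1, by omega⟩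
  have h := Pt_der m t β
  rw [Nat.add_sub_cancel]
  push_cast
  exact h

theorem F_der {k : ℕ} (hk : 2 ≤ k) {s j : ℕ} (t t' : (Fin s → ℕ) × (Fin j → ℕ)) (β : ℝ) :
    HasDerivAt (fun β => Pt k β t - Pt k β t')
      ((k : ℝ) * (Pt (k - 1) β t - Pt (k - 1) β t')) β := by
  have h := (der_pt (show 1 ≤ k by omega) t β).fun_sub (der_pt (show 1 ≤ k by omega) t' β)
  rw [mul_sub]
  exact h

theorem F1_der {k : ℕ} (hk : 2 ≤ k) {s j : ℕ} (t t' : (Fin s → ℕ) × (Fin j → ℕ)) (β : ℝ) :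
    HasDerivAt (fun β => (k : ℝ) * (Pt (k - 1) β t - Pt (k - 1) β t'))
      ((k : ℝ) * ((k : ℝ) - 1) * (Pt (k - 2) β t - Pt (k - 2) β t')) β := by
  have h := ((der_pt (show 1 ≤ k - 1 by omega) t β).fun_sub
    (der_pt (show 1 ≤ k - 1 by omega) t' β)).const_mul (k : ℝ)
  have e1 : k - 1 - 1 = k - 2 := by omega
  have e2 : ((k - 1 : ℕ) : ℝ) = (k : ℝ) - 1 := by
    rw [Nat.cast_sub (by omega), Nat.cast_one]
  rw [e1, e2] at h
  have e3 : (k : ℝ) * ((k : ℝ) - 1) * (Pt (k - 2) β t - Pt (k - 2) β t') =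
      (k : ℝ) * (((k : ℝ) - 1) * Pt (k - 2) β t - ((k : ℝ) - 1) * Pt (k - 2) β t') := by ring
  rw [e3]
  exact h

private theorem der_abs (d : ℕ) {k s j : ℕ} {X β : ℝ} (hk : 2 ≤ k) (hX : 1 ≤ X) (hβ : 0 ≤ β)
    (hβ2 : β ≤ 2) {t t' : (Fin s → ℕ) × (Fin j → ℕ)} (ht : t ∈ TT k s j X) (ht' : t' ∈ TT k s j X) :
    |Pt d β t - Pt d β t'| ≤ ((s : ℝ) + j) * (18 * X) ^ d := by
  have h1 := Pt_le d hk hX hβ hβ2 ht
  have h2 := Pt_le d hk hX hβ hβ2 ht'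
  have h3 := Pt_nonneg d hβ t
  have h4 := Pt_nonneg d hβ t'
  rw [abs_le]
  constructor <;> linarith

theorem F1_bound {k s j : ℕ} (hk : 2 ≤ k) {X β : ℝ} (hX : 1 ≤ X) (hβ : 0 ≤ β) (hβ2 : β ≤ 2)
    {t t' : (Fin s → ℕ) × (Fin j → ℕ)} (ht : t ∈ TT k s j X) (ht' : t' ∈ TT k s j X) :
    |(k : ℝ) * (Pt (k - 1) β t - Pt (k - 1) β t')| ≤ WW k s j X := by
  have h := der_abs (k - 1) hk hX hβ hβ2 ht ht'
  have hk0 : (0 : ℝ) ≤ k := by positivity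
  unfold WW
  rw [abs_mul, abs_of_nonneg hk0, mul_assoc]
  exact mul_le_mul_of_nonneg_left h hk0

theorem F2_bound {k s j : ℕ} (hk : 2 ≤ k) {X β : ℝ} (hX : 1 ≤ X) (hβ : 0 ≤ β) (hβ2 : β ≤ 2)
    {t t' : (Fin s → ℕ) × (Fin j → ℕ)} (ht : t ∈ TT k s j X) (ht' : t' ∈ TT k s j X) :
    |(k : ℝ) * ((k : ℝ) - 1) * (Pt (k - 2) β t - Pt (k - 2) β t')| ≤ MM k s j X := by
  have h := der_abs (k - 2) hk hX hβ hβ2 ht ht'
  have hk2 : (2 : ℝ) ≤ k := by exact_mod_cast hk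
  have hk0 : (0 : ℝ) ≤ (k : ℝ) * ((k : ℝ) - 1) := mul_nonneg (by linarith) (by linarith)
  have h1 : (k : ℝ) * ((k : ℝ) - 1) ≤ (k : ℝ) ^ 2 := by nlinarith
  have h2 : (0 : ℝ) ≤ ((s : ℝ) + j) * (18 * X) ^ (k - 2) := by positivity
  unfold MM
  rw [abs_mul, abs_of_nonneg hk0, mul_assoc ((k : ℝ) ^ 2)]
  exact mul_le_mul h1 h (abs_nonneg _) (by positivity)

end Pool.Agent.Lib.MP_570bef_ntSH
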