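import Mathlib
import Pool.Agent.Lib.MP_570bef_ntSH.Der

/-!
# JOB Lip: moving the shift (about 60 lines)

For `z = (t, t')`, `t, t' ∈ TT k s j X`, and `F β = Pt k β t - Pt k β t'`: `|F β - F β'| ≤ WW k s j X * |β - β'|` for `β, β' ∈ [0, 1]` (mean value inequality, `F_der`, `F1_bound`; e.g. `Convex.norm_image_sub_le_of_norm_hasDerivWithin_le`).
For `|β - β'| ≤ 1/(2 X^k)`: `WW k s j X/(2 X^k) = k (s+j) 18^(k-1)/(2 X) ≤ δ` for `X ≥ X0 = max 1 (k (s+j) 18^(k-1)/(2 δ))`.  So the set in the definition of `NN k s j β δ X` is contained in the one of `NN k s j β' (2 δ) X`.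
-/

set_option autoImplicit false

namespace Pool.Agent.Lib.MP_570bef_ntSH

open Finset
open Pool.Agent.Lib.MP_570bef_ntS

theorem NN_lip (k s j : ℕ) (hk : 2 ≤ k) {δ : ℝ} (hδ : 0 < δ) : ∃ X0 : ℝ, 1 ≤ X0 ∧ ∀ X ≥ X0,
    ∀ β ∈ Set.Icc (0 : ℝ) 1, ∀ β' ∈ Set.Icc (0 : ℝ) 1, |β - β'| ≤ 1 / (2 * X ^ k) →
      NN k s j β δ X ≤ NN k s j β' (2 * δ) X := by
  refine ⟨max 1 ((k : ℝ) * ((s : ℝ) + j) * 18 ^ (k - 1) / (2 * δ)), le_max_left _ _, ?_⟩
  intro X hX β hβ β' hβ' hd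
  have hX1 : (1 : ℝ) ≤ X := le_trans (le_max_left _ _) hX
  have hX0 : (0 : ℝ) < X := by linarith
  have hX2 : (k : ℝ) * ((s : ℝ) + j) * 18 ^ (k - 1) / (2 * δ) ≤ X := le_trans (le_max_right _ _) hX
  have hW : WW k s j X * (1 / (2 * X ^ k)) ≤ δ := by
    rw [div_le_iff₀ (by positivity)] at hX2
    have hk1 : X ^ k = X ^ (k - 1) * X := by
      rw [← pow_succ]
      congr 1
      omega
    unfold WW
    rw [mul_pow, hk1, mul_one_div, div_le_iff₀ (by positivity)]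
    have hp : 0 < X ^ (k - 1) := by positivity
    have h1 := mul_le_mul_of_nonneg_right hX2 hp.le
    calc (k : ℝ) * ((s : ℝ) + j) * (18 ^ (k - 1) * X ^ (k - 1))
        = (k : ℝ) * ((s : ℝ) + j) * 18 ^ (k - 1) * X ^ (k - 1) := by ring
      _ ≤ X * (2 * δ) * X ^ (k - 1) := h1
      _ = δ * (2 * (X ^ (k - 1) * X)) := by ring
  unfold NN
  refine card_le_card fun z hz => ?_
  rw [mem_filter] at hz ⊢
  refine ⟨hz.1, ?_⟩
  obtain ⟨h1, h2⟩ := mem_product.1 hz.1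
  have h3 : ‖(Pt k β' z.1 - Pt k β' z.2) - (Pt k β z.1 - Pt k β z.2)‖ ≤
      WW k s j X * ‖β' - β‖ := by
    refine Convex.norm_image_sub_le_of_norm_hasDerivWithin_le (s := Set.Icc (0 : ℝ) 1)
      (f := fun b => Pt k b z.1 - Pt k b z.2)
      (f' := fun b => (k : ℝ) * (Pt (k - 1) b z.1 - Pt (k - 1) b z.2))
      (fun b _ => (F_der hk z.1 z.2 b).hasDerivWithinAt) ?_ (convex_Icc _ _) hβ hβ'
    intro b hb
    rw [Real.norm_eq_abs]
    exact F1_bound hk hX1 hb.1 (by linarith [hb.2]) h1 h2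
  rw [Real.norm_eq_abs, Real.norm_eq_abs] at h3
  have hWW : 0 ≤ WW k s j X := by
    unfold WW
    positivity
  have h4 : WW k s j X * |β' - β| ≤ δ := by
    rw [abs_sub_comm β' β]
    exact (mul_le_mul_of_nonneg_left hd hWW).trans hW
  have h5 := abs_sub_abs_le_abs_sub (Pt k β' z.1 - Pt k β' z.2) (Pt k β z.1 - Pt k β z.2)
  have h6 := hz.2
  linarith

end Pool.Agent.Lib.MP_570bef_ntSH
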