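import Mathlib
import Pool.Agent.Lib.MP_570bef_ntSH.Kap

/-!
# JOB SMa: the parameters (about 130 lines)

`q = k κ^s > 0`; `good_one`: `3 q < k`; `good_two`: `2 q < k - 1`; `good_three`: `(k-1) κ^j + q < k - 1`; `good_pos`: `s ≥ 1`.  `rho0 = X^(k - 1 - q)`.
`δ ≤ X^q` for large `X`.  `X^((k-1) κ^j) ≤ rho0` by `good_three`.
`X^q ≤ rho0` by `good_two`; `rho0 * (rho0/(2 MM)) = X^(2 (k - 1 - q) - (k - 2))/(2 k^2 (s+j) 18^(k-2)) = X^(k - 2 q)/C0 ≥ X^q` as soon as `X^(k - 3 q) ≥ C0` (`k - 3q > 0`), so `X^q ≤ rho0 * min 1 (rho0/(2 MM))` (`mul_min_of_nonneg`).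
`WW/rho0 = k (s+j) 18^(k-1) X^q = C1 X^q`; `n = ⌈log (C1 X^q)/log 2⌉₊` (`C1 ≥ 1`): `2^n ≥ C1 X^q`, `n ≤ (log C1 + k log X)/log 2 + 1`.
`min_step`: for `i : ℕ` `2^i rho0 ≥ rho0` and `t ↦ t * min 1 (t/(2 MM))` is increasing in `t ≥ 0`.
(Natural powers `X^(k-2)`, `X^(k-1)` are real powers with exponents `k - 2`, `k - 1`: `Real.rpow_natCast`, `Nat.cast_sub`.)
-/

set_option autoImplicit false

namespace Pool.Agent.Lib.MP_570bef_ntSH

open Finset
open Pool.Agent.Lib.MP_570bef_ntS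

theorem rho0_pos {k s : ℕ} {X : ℝ} (hX : 1 ≤ X) : 0 < rho0 k s X :=
  Real.rpow_pos_of_pos (by linarith) _

private theorem SMa_sj {k s j : ℕ} (h : Good k s j) : (1 : ℝ) ≤ (s : ℝ) + j := by
  have h1 : (1 : ℝ) ≤ s := by exact_mod_cast good_pos h
  have h2 : (0 : ℝ) ≤ j := Nat.cast_nonneg j
  linarith

theorem MM_pos {k s j : ℕ} (h : Good k s j) {X : ℝ} (hX : 1 ≤ X) : 0 < MM k s j X := by
  have h0 : (2 : ℝ) ≤ k := by exact_mod_cast h.hk
  have h1 := SMa_sj h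
  have h2 : (0 : ℝ) < (s : ℝ) + j := by linarith
  have h3 : (0 : ℝ) < k := by linarith
  have h4 : 0 < X := by linarith
  unfold MM
  positivity

theorem min_step {k s j : ℕ} (h : Good k s j) {X : ℝ} (hX : 1 ≤ X) (i : ℕ) :
    rho0 k s X * min 1 (rho0 k s X / (2 * MM k s j X)) ≤
      (2 ^ i * rho0 k s X) * min 1 ((2 ^ i * rho0 k s X) / (2 * MM k s j X)) := by
  have h1 : 0 < rho0 k s X := rho0_pos hX
  have h2 : 0 < 2 * MM k s j X := by
    have := MM_pos h hX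
    linarith
  have h3 : rho0 k s X ≤ 2 ^ i * rho0 k s X :=
    le_mul_of_one_le_left h1.le (one_le_pow₀ (by norm_num))
  refine mul_le_mul h3 (min_le_min_left _ (div_le_div_of_nonneg_right h3 h2.le)) ?_ (h1.le.trans h3)
  exact le_min zero_le_one (div_nonneg h1.le h2.le)

theorem num {k s j : ℕ} (h : Good k s j) {δ : ℝ} (hδ : 0 < δ) :
    ∃ C X0 : ℝ, 0 < C ∧ 1 ≤ X0 ∧ ∀ X ≥ X0,
      δ ≤ X ^ ((k : ℝ) * kap k ^ s) ∧ X ^ (((k : ℝ) - 1) * kap k ^ j) ≤ rho0 k s X ∧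
      X ^ ((k : ℝ) * kap k ^ s) ≤ rho0 k s X * min 1 (rho0 k s X / (2 * MM k s j X)) ∧
      ∃ n : ℕ, WW k s j X ≤ 2 ^ n * rho0 k s X ∧ (n : ℝ) ≤ C * (1 + Real.log X) := by
  have hk : (2 : ℝ) ≤ k := by exact_mod_cast h.hk
  have hk2 := h.hk
  have hsj := SMa_sj h
  obtain ⟨q, hqdef⟩ : ∃ q : ℝ, q = (k : ℝ) * kap k ^ s := ⟨_, rfl⟩
  have hq0 : 0 < q := by
    rw [hqdef]
    exact mul_pos (by linarith) (kap_pow_pos h.hk s)
  have hg1 := good_one h
  have hg2 := good_two h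
  have hg3 := good_three h
  rw [← hqdef] at hg1 hg2 hg3
  obtain ⟨C0, hC0⟩ : ∃ C0 : ℝ, C0 = 2 * ((k : ℝ) ^ 2 * ((s : ℝ) + j) * 18 ^ (k - 2)) := ⟨_, rfl⟩
  obtain ⟨C1, hC1⟩ : ∃ C1 : ℝ, C1 = (k : ℝ) * ((s : ℝ) + j) * 18 ^ (k - 1) := ⟨_, rfl⟩
  have hC11 : 1 ≤ C1 := by
    rw [hC1]
    have h1 : (1 : ℝ) ≤ 18 ^ (k - 1) := one_le_pow₀ (by norm_num)
    have h2 : (1 : ℝ) ≤ (k : ℝ) * ((s : ℝ) + j) := by nlinarith
    nlinarith
  have hlC1 : 0 ≤ Real.log C1 := Real.log_nonneg hC11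
  have hl2 : 0 < Real.log 2 := Real.log_pos (by norm_num)
  obtain ⟨a, ha⟩ := Filter.eventually_atTop.1
    (((tendsto_rpow_atTop hq0).eventually_ge_atTop δ).and
      ((tendsto_rpow_atTop (show 0 < (k : ℝ) - 3 * q by linarith)).eventually_ge_atTop C0))
  refine ⟨(Real.log C1 + q) / Real.log 2 + 1, max 1 a, by positivity, le_max_left _ _, ?_⟩
  intro X hX
  have hX1 : 1 ≤ X := (le_max_left _ _).trans hX
  have hX0 : 0 < X := by linarith
  obtain ⟨hb1, hb2⟩ := ha X ((le_max_right _ _).trans hX)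
  have hlX : 0 ≤ Real.log X := Real.log_nonneg hX1
  have hrho : rho0 k s X = X ^ ((k : ℝ) - 1 - q) := by
    unfold rho0
    rw [← hqdef]
  have hrho0 : 0 < rho0 k s X := rho0_pos hX1
  have hMM := MM_pos h hX1
  rw [← hqdef]
  refine ⟨hb1, ?_, ?_, ?_⟩
  · rw [hrho]
    exact Real.rpow_le_rpow_of_exponent_le hX1 (by linarith)
  · rw [mul_min_of_nonneg _ _ hrho0.le, mul_one]
    refine le_min ?_ ?_
    · rw [hrho]
      exact Real.rpow_le_rpow_of_exponent_le hX1 (by linarith)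
    · rw [← mul_div_assoc, le_div_iff₀ (by linarith)]
      have e1 : 2 * MM k s j X = C0 * X ^ ((k : ℝ) - 2) := by
        unfold MM
        rw [mul_pow, hC0]
        have e2 : X ^ (k - 2) = X ^ ((k : ℝ) - 2) := by
          rw [← Real.rpow_natCast, Nat.cast_sub hk2]
          norm_num
        rw [e2]
        ring
      have e3 : rho0 k s X * rho0 k s X =
          X ^ ((k : ℝ) - 3 * q) * X ^ ((k : ℝ) - 2) * X ^ q := by
        rw [hrho, ← Real.rpow_add hX0, ← Real.rpow_add hX0, ← Real.rpow_add hX0]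
        congr 1
        ring
      rw [e1, e3]
      have e4 : 0 ≤ X ^ ((k : ℝ) - 2) * X ^ q := by positivity
      have e5 := mul_le_mul_of_nonneg_right hb2 e4
      calc X ^ q * (C0 * X ^ ((k : ℝ) - 2)) = C0 * (X ^ ((k : ℝ) - 2) * X ^ q) := by ring
        _ ≤ X ^ ((k : ℝ) - 3 * q) * (X ^ ((k : ℝ) - 2) * X ^ q) := e5
        _ = X ^ ((k : ℝ) - 3 * q) * X ^ ((k : ℝ) - 2) * X ^ q := by ring
  · have hXq : 0 < X ^ q := Real.rpow_pos_of_pos hX0 _
    have hCX : 0 < C1 * X ^ q := mul_pos (by linarith) hXq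
    have hlog : Real.log (C1 * X ^ q) = Real.log C1 + q * Real.log X := by
      rw [Real.log_mul (by linarith) hXq.ne', Real.log_rpow hX0]
    have hlog0 : 0 ≤ Real.log (C1 * X ^ q) := by
      rw [hlog]
      positivity
    refine ⟨⌈Real.log (C1 * X ^ q) / Real.log 2⌉₊, ?_, ?_⟩
    · have e1 : WW k s j X = (C1 * X ^ q) * rho0 k s X := by
        unfold WW
        rw [mul_pow, hC1, hrho]
        have e2 : X ^ (k - 1) = X ^ q * X ^ ((k : ℝ) - 1 - q) := by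
          rw [← Real.rpow_natCast, Nat.cast_sub (by omega : 1 ≤ k), ← Real.rpow_add hX0]
          congr 1
          push_cast
          ring
        rw [e2]
        ring
      rw [e1]
      refine mul_le_mul_of_nonneg_right ?_ hrho0.le
      have e3 : Real.log (C1 * X ^ q) / Real.log 2 ≤
          (⌈Real.log (C1 * X ^ q) / Real.log 2⌉₊ : ℝ) := Nat.le_ceil _
      rw [div_le_iff₀ hl2] at e3
      calc C1 * X ^ q = Real.exp (Real.log (C1 * X ^ q)) := (Real.exp_log hCX).symm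
        _ ≤ Real.exp ((⌈Real.log (C1 * X ^ q) / Real.log 2⌉₊ : ℝ) * Real.log 2) :=
            Real.exp_le_exp.2 e3
        _ = 2 ^ ⌈Real.log (C1 * X ^ q) / Real.log 2⌉₊ := by
            rw [Real.exp_nat_mul, Real.exp_log (by norm_num)]
    · have e3 : (⌈Real.log (C1 * X ^ q) / Real.log 2⌉₊ : ℝ) <
          Real.log (C1 * X ^ q) / Real.log 2 + 1 := Nat.ceil_lt_add_one (by positivity)
      rw [hlog] at e3
      have e4 : (Real.log C1 + q * Real.log X) / Real.log 2 ≤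
          (Real.log C1 + q) / Real.log 2 * (1 + Real.log X) := by
        rw [div_mul_eq_mul_div]
        refine div_le_div_of_nonneg_right ?_ hl2.le
        nlinarith [mul_nonneg hlC1 hlX]
      rw [hlog]
      nlinarith

end Pool.Agent.Lib.MP_570bef_ntSH
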