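import Mathlib

/-!
# JOB SumVol: sums of measures and the counting function (about 90 lines)

`sum_vol`: `∑ z, volume (S z) = ∫_[a,b] #{z ∈ Z : β ∈ S z} dβ` (sum of integrals of indicators; `S z ⊆ [a, b]`), and `#{z ∈ Z : β ∈ S z} ≤ N` on `[a, b]`, so at most `(b - a) N`.
`int_count`: the same identity for the counting function: `∫ β in 0..1, #{z ∈ Z : |F z β| ≤ δ} = ∑ z, volume {β ∈ [0,1] : |F z β| ≤ δ}` (continuous functions `F z`; closed sets; the counting function is the sum over `z ∈ Z` of the indicators of these sets, each integrable on `[0, 1]`).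
-/

set_option autoImplicit false

namespace Pool.Agent.Lib.MP_570bef_ntSH

open MeasureTheory

private theorem sumvol_card {ι : Type*} (Z : Finset ι) (p : ι → Prop) [DecidablePred p] :
    ((Z.filter p).card : ℝ) = ∑ z ∈ Z, if p z then (1 : ℝ) else 0 := by
  rw [Finset.card_filter]
  push_cast
  rfl

theorem sum_vol {ι : Type*} (Z : Finset ι) (S : ι → Set ℝ) {a b N : ℝ} (hab : a ≤ b)
    (hS : ∀ z ∈ Z, MeasurableSet (S z)) (hSab : ∀ z ∈ Z, S z ⊆ Set.Icc a b)
    (hN : ∀ β ∈ Set.Icc a b, ∀ Y : Finset ι, Y ⊆ Z → (∀ z ∈ Y, β ∈ S z) → (Y.card : ℝ) ≤ N) :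
    ∑ z ∈ Z, (volume (S z)).toReal ≤ (b - a) * N := by
  classical
  have h1 : ∀ z ∈ Z, (volume (S z)).toReal =
      ∫ β in Set.Icc a b, (S z).indicator (fun _ => (1 : ℝ)) β := by
    intro z hz
    rw [integral_indicator (hS z hz), Measure.restrict_restrict (hS z hz),
      Set.inter_eq_left.2 (hSab z hz)]
    simp [Measure.real]
  have hint : ∀ z ∈ Z, Integrable ((S z).indicator (fun _ => (1 : ℝ)))
      (volume.restrict (Set.Icc a b)) := by
    intro z hz
    refine (integrable_const (1 : ℝ)).indicator (hS z hz)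
  rw [Finset.sum_congr rfl h1, ← integral_finset_sum Z hint]
  have h2 : ∫ β in Set.Icc a b, ∑ z ∈ Z, (S z).indicator (fun _ => (1 : ℝ)) β ≤
      ∫ _ in Set.Icc a b, N := by
    refine setIntegral_mono_on (integrable_finset_sum Z hint) (integrable_const N)
      measurableSet_Icc ?_
    intro β hβ
    have h3 : ∑ z ∈ Z, (S z).indicator (fun _ => (1 : ℝ)) β =
        ((Z.filter (fun z => β ∈ S z)).card : ℝ) := by
      rw [sumvol_card]
      refine Finset.sum_congr rfl fun z _ => ?_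
      rw [Set.indicator_apply]
    rw [h3]
    exact hN β hβ _ (Finset.filter_subset _ _) (fun z hz => (Finset.mem_filter.1 hz).2)
  refine h2.trans (le_of_eq ?_)
  rw [setIntegral_const, smul_eq_mul]
  congr 1
  rw [Measure.real, Real.volume_Icc, ENNReal.toReal_ofReal (by linarith)]

theorem int_count {ι : Type*} (Z : Finset ι) (F : ι → ℝ → ℝ) (hF : ∀ z ∈ Z, Continuous (F z))
    (δ : ℝ) :
    IntervalIntegrable (fun β => ((Z.filter (fun z => |F z β| ≤ δ)).card : ℝ)) volume 0 1 ∧
    ∫ β in (0 : ℝ)..1, ((Z.filter (fun z => |F z β| ≤ δ)).card : ℝ) =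
      ∑ z ∈ Z, (volume {β : ℝ | β ∈ Set.Icc (0 : ℝ) 1 ∧ |F z β| ≤ δ}).toReal := by
  have hms : ∀ z ∈ Z, MeasurableSet {β : ℝ | |F z β| ≤ δ} := by
    intro z hz
    exact (isClosed_le ((hF z hz).abs) continuous_const).measurableSet
  have hfun : (fun β => ((Z.filter (fun z => |F z β| ≤ δ)).card : ℝ)) =
      fun β => ∑ z ∈ Z, ({β : ℝ | |F z β| ≤ δ}).indicator (fun _ => (1 : ℝ)) β := by
    funext β
    rw [sumvol_card]
    refine Finset.sum_congr rfl fun z _ => ?_
    rw [Set.indicator_apply]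
    rfl
  have hint : ∀ z ∈ Z, Integrable (({β : ℝ | |F z β| ≤ δ}).indicator (fun _ => (1 : ℝ)))
      (volume.restrict (Set.Ioc (0 : ℝ) 1)) := by
    intro z hz
    exact (integrable_const (1 : ℝ)).indicator (hms z hz)
  rw [hfun]
  constructor
  · rw [intervalIntegrable_iff_integrableOn_Ioc_of_le zero_le_one]
    exact integrable_finset_sum Z hint
  · rw [intervalIntegral.integral_of_le zero_le_one, integral_finset_sum Z hint]
    refine Finset.sum_congr rfl fun z hz => ?_
    rw [integral_indicator (hms z hz), Measure.restrict_restrict (hms z hz)]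
    have h1 : volume ({β : ℝ | |F z β| ≤ δ} ∩ Set.Ioc (0 : ℝ) 1) =
        volume {β : ℝ | β ∈ Set.Icc (0 : ℝ) 1 ∧ |F z β| ≤ δ} := by
      have h2 : {β : ℝ | β ∈ Set.Icc (0 : ℝ) 1 ∧ |F z β| ≤ δ} =
          {β : ℝ | |F z β| ≤ δ} ∩ Set.Icc (0 : ℝ) 1 := by
        ext β
        simp only [Set.mem_setOf_eq, Set.mem_inter_iff]
        tauto
      rw [h2]
      exact measure_congr ((Filter.EventuallyEq.refl _ _).inter Ioc_ae_eq_Icc)
    rw [← h1]
    simp [Measure.real]

end Pool.Agent.Lib.MP_570bef_ntSH
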