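import Mathlib
import Pool.Agent.Lib.MP_570bef_ntSH.Counts
import Pool.Agent.Lib.MP_570bef_ntSH.Der
import Pool.Agent.Lib.MP_570bef_ntSH.SumVol

/-!
# JOB Step: one dyadic range and the small derivatives (about 120 lines)

`z` runs over `TT ×ˢ TT`.
`step_vol`: `sum_vol` with `a = 0`, `b = 2`, `S z = {β ∈ [0,2] : |Pt k β z.1 - Pt k β z.2| ≤ R}` (closed: `Pt_cont`): for `β ∈ [0,2]` a set `Y` of such `z` is contained in the set in the definition of `NN k s j β R X`, so `card Y ≤ NN k s j β R X`: `NN_le`.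
`step_small`: `sum_vol` with `a = 0`, `b = 1`, and `N2_le`.
`step_one`: `step_vol` with `R = δ + 3 w ≤ 4 w`: `8 δ/w * C (card TT)^2 (4 w) X^(-k) = 32 C δ (card TT)^2 X^(-k)`.
-/

set_option autoImplicit false

namespace Pool.Agent.Lib.MP_570bef_ntSH

open MeasureTheory Finset
open Pool.Agent.Lib.MP_570bef_ntS

theorem step_vol (k s j : ℕ) (hk : 2 ≤ k) : ∃ C : ℝ, 0 < C ∧ ∀ X R : ℝ, 1 ≤ X →
    X ^ ((k : ℝ) * kap k ^ s) ≤ R →
    ∑ z ∈ TT k s j X ×ˢ TT k s j X,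
      (volume {β : ℝ | β ∈ Set.Icc (0 : ℝ) 2 ∧ |Pt k β z.1 - Pt k β z.2| ≤ R}).toReal ≤
      C * ((TT k s j X).card : ℝ) ^ 2 * R * X ^ (-(k : ℝ)) := by
  obtain ⟨C, hC, hN⟩ := NN_le k s j hk
  refine ⟨2 * C, by positivity, fun X R hX hR => ?_⟩
  have hsum := sum_vol (TT k s j X ×ˢ TT k s j X)
    (fun z => {β : ℝ | β ∈ Set.Icc (0 : ℝ) 2 ∧ |Pt k β z.1 - Pt k β z.2| ≤ R})
    (a := 0) (b := 2) (N := C * ((TT k s j X).card : ℝ) ^ 2 * R * X ^ (-(k : ℝ))) (by norm_num)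
    (fun z _ => (isClosed_Icc.inter (isClosed_le
      ((Pt_cont k z.1).sub (Pt_cont k z.2)).abs continuous_const)).measurableSet)
    (fun z _ β hβ => hβ.1) ?_
  · refine hsum.trans (le_of_eq ?_)
    ring
  · intro β hβ Y hY hYS
    refine le_trans ?_ (hN X β R hX hβ.1 hβ.2 hR)
    have h1 : Y ⊆ (TT k s j X ×ˢ TT k s j X).filter
        (fun z => |Pt k β z.1 - Pt k β z.2| ≤ R) := fun z hz =>
      mem_filter.2 ⟨hY hz, (hYS z hz).2⟩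
    exact_mod_cast card_le_card h1

theorem step_small (k s j : ℕ) (hk : 2 ≤ k) (hjs : j ≤ s) : ∃ C : ℝ, 0 < C ∧
    ∀ X ρ δ : ℝ, 1 ≤ X → δ ≤ X ^ ((k : ℝ) * kap k ^ s) → X ^ (((k : ℝ) - 1) * kap k ^ j) ≤ ρ →
    ∑ z ∈ TT k s j X ×ˢ TT k s j X,
      (volume {β : ℝ | β ∈ Set.Icc (0 : ℝ) 1 ∧ |Pt k β z.1 - Pt k β z.2| ≤ δ ∧
        |(k : ℝ) * (Pt (k - 1) β z.1 - Pt (k - 1) β z.2)| ≤ ρ}).toReal ≤
      C * ((TT k s j X).card : ℝ) * ρ * X ^ (1 - (k : ℝ) * kap k ^ j) := by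
  obtain ⟨C, hC, hN⟩ := N2_le k s j hk hjs
  refine ⟨C, hC, fun X ρ δ hX hδ hρ => ?_⟩
  have hsum := sum_vol (TT k s j X ×ˢ TT k s j X)
    (fun z => {β : ℝ | β ∈ Set.Icc (0 : ℝ) 1 ∧ |Pt k β z.1 - Pt k β z.2| ≤ δ ∧
      |(k : ℝ) * (Pt (k - 1) β z.1 - Pt (k - 1) β z.2)| ≤ ρ})
    (a := 0) (b := 1) (N := C * ((TT k s j X).card : ℝ) * ρ * X ^ (1 - (k : ℝ) * kap k ^ j))
    (by norm_num)
    (fun z _ => (isClosed_Icc.inter ((isClosed_le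
      ((Pt_cont k z.1).sub (Pt_cont k z.2)).abs continuous_const).inter (isClosed_le
      (continuous_const.mul ((Pt_cont (k - 1) z.1).sub (Pt_cont (k - 1) z.2))).abs
      continuous_const))).measurableSet)
    (fun z _ β hβ => hβ.1) ?_
  · refine hsum.trans (le_of_eq ?_)
    ring
  · intro β hβ Y hY hYS
    refine le_trans ?_ (hN X β ρ δ hX hβ.1 (hβ.2.trans (by norm_num)) hδ hρ)
    have h1 : Y ⊆ (TT k s j X ×ˢ TT k s j X).filter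
        (fun z => |Pt k β z.1 - Pt k β z.2| ≤ δ ∧
          |(k : ℝ) * (Pt (k - 1) β z.1 - Pt (k - 1) β z.2)| ≤ ρ) := fun z hz =>
      mem_filter.2 ⟨hY hz, (hYS z hz).2⟩
    exact_mod_cast card_le_card h1

theorem step_one (k s j : ℕ) (hk : 2 ≤ k) : ∃ C : ℝ, 0 < C ∧ ∀ X w δ : ℝ, 1 ≤ X → 0 < δ →
    δ ≤ w → X ^ ((k : ℝ) * kap k ^ s) ≤ w →
    8 * δ / w * ∑ z ∈ TT k s j X ×ˢ TT k s j X,
      (volume {β : ℝ | β ∈ Set.Icc (0 : ℝ) 2 ∧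
        |Pt k β z.1 - Pt k β z.2| ≤ δ + 3 * w}).toReal ≤
      C * δ * ((TT k s j X).card : ℝ) ^ 2 * X ^ (-(k : ℝ)) := by
  obtain ⟨C, hC, hN⟩ := step_vol k s j hk
  refine ⟨32 * C, by positivity, fun X w δ hX hδ hδw hw => ?_⟩
  have hw0 : 0 < w := hδ.trans_le hδw
  have h1 := hN X (δ + 3 * w) hX (by linarith)
  have hX0 : 0 ≤ X ^ (-(k : ℝ)) := Real.rpow_nonneg (by linarith) _
  have hE : 0 ≤ C * ((TT k s j X).card : ℝ) ^ 2 * X ^ (-(k : ℝ)) := by positivity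
  have h2 : C * ((TT k s j X).card : ℝ) ^ 2 * (δ + 3 * w) * X ^ (-(k : ℝ)) ≤
      C * ((TT k s j X).card : ℝ) ^ 2 * (4 * w) * X ^ (-(k : ℝ)) := by
    have := mul_le_mul_of_nonneg_left (show δ + 3 * w ≤ 4 * w by linarith) hE
    calc C * ((TT k s j X).card : ℝ) ^ 2 * (δ + 3 * w) * X ^ (-(k : ℝ)) =
        C * ((TT k s j X).card : ℝ) ^ 2 * X ^ (-(k : ℝ)) * (δ + 3 * w) := by ring
      _ ≤ C * ((TT k s j X).card : ℝ) ^ 2 * X ^ (-(k : ℝ)) * (4 * w) := this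
      _ = C * ((TT k s j X).card : ℝ) ^ 2 * (4 * w) * X ^ (-(k : ℝ)) := by ring
  have h3 : 0 ≤ 8 * δ / w := by positivity
  refine (mul_le_mul_of_nonneg_left (h1.trans h2) h3).trans (le_of_eq ?_)
  field_simp
  ring

end Pool.Agent.Lib.MP_570bef_ntSH
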