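import Mathlib

/-!
# JOB TL: one pair (about 130 lines)

`l = min 1 (ρ/(2M)) > 0`.  For `i : ℕ` let `I i = [i l, (i+1) l)` (`Set.Ico`); `[0, 1]` is covered by the `I i` with `i l ≤ 1`, and these lie in `[0, 2]` (`l ≤ 1`); finitely many (`i ≤ ⌊1/l⌋`).
Let `A = {β ∈ [0,1] : |F β| ≤ δ, ρ ≤ |F1 β| ≤ 2ρ}`, `B = {β ∈ [0,2] : |F β| ≤ δ + 3 ρ l}`.
If `A ∩ I i` is not empty, `β0` in it: for `β ∈ I i ⊆ [0,2]`: `|F1 β - F1 β0| ≤ M l ≤ ρ/2` (mean value inequality on `[0,2]`), so `|F1 β| ≥ ρ/2` with the sign of `F1 β0`, and `|F1 β| ≤ 5ρ/2`, hence `|F β| ≤ δ + (5/2) ρ l ≤ δ + 3 ρ l`: `I i ⊆ B`.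
Two points `β, β'` of `A ∩ I i`: `2 δ ≥ |F β - F β'| ≥ (ρ/2) |β - β'|` (mean value theorem, `F1` has constant sign and absolute value at least `ρ/2` between them), so `A ∩ I i` lies in `[β0 - 4δ/ρ, β0 + 4δ/ρ]`: its measure is `≤ 8δ/ρ = (8δ/(ρ l)) volume (I i)`.
Sum over the finitely many `i` (the `I i` are disjoint, those with `A ∩ I i` not empty are in `B`): `volume A ≤ (8δ/(ρ l)) volume B`.
-/

set_option autoImplicit false

namespace Pool.Agent.Lib.MP_570bef_ntSH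

open MeasureTheory

private theorem TL_local {F F1 F2 : ℝ → ℝ} {δ ρ M l : ℝ} (hδ : 0 ≤ δ) (hρ : 0 < ρ)
    (hM : 0 < M) (hl : 0 < l) (hl1 : l ≤ 1) (hlM : M * l ≤ ρ / 2)
    (hF : ∀ β, HasDerivAt F (F1 β) β) (hF1 : ∀ β, HasDerivAt F1 (F2 β) β)
    (hF2 : ∀ β ∈ Set.Icc (0 : ℝ) 2, |F2 β| ≤ M) (a : ℝ) (ha : 0 ≤ a) :
    volume ({β : ℝ | β ∈ Set.Icc (0 : ℝ) 1 ∧ |F β| ≤ δ ∧ ρ ≤ |F1 β| ∧ |F1 β| ≤ 2 * ρ} ∩
        Set.Ico a (a + l)) ≤
      ENNReal.ofReal (8 * δ / (ρ * l)) *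
        volume ({β : ℝ | β ∈ Set.Icc (0 : ℝ) 2 ∧ |F β| ≤ δ + 3 * (ρ * l)} ∩
          Set.Ico a (a + l)) := by
  rcases Set.eq_empty_or_nonempty ({β : ℝ | β ∈ Set.Icc (0 : ℝ) 1 ∧ |F β| ≤ δ ∧
      ρ ≤ |F1 β| ∧ |F1 β| ≤ 2 * ρ} ∩ Set.Ico a (a + l)) with h | ⟨b, ⟨⟨hb0, hb1⟩, hb2, hb3, hb4⟩, hb5, hb6⟩
  · rw [h, measure_empty]
    exact zero_le
  have hsub2 : Set.Ico a (a + l) ⊆ Set.Icc (0 : ℝ) 2 := fun x hx =>
    ⟨ha.trans hx.1, by linarith [hx.2]⟩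
  have hdiff : ∀ x ∈ Set.Ico a (a + l), |x - b| ≤ l := by
    intro x hx
    rw [abs_le]
    constructor <;> linarith [hx.1, hx.2]
  have hF1d : ∀ x ∈ Set.Ico a (a + l), |F1 x - F1 b| ≤ ρ / 2 := by
    intro x hx
    have h1 := Convex.norm_image_sub_le_of_norm_hasDerivWithin_le (f := F1) (f' := F2) (C := M)
      (s := Set.Icc (0 : ℝ) 2) (fun y _ => (hF1 y).hasDerivWithinAt)
      (fun y hy => by rw [Real.norm_eq_abs]; exact hF2 y hy) (convex_Icc 0 2)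
      (hsub2 ⟨hb5, hb6⟩) (hsub2 hx)
    rw [Real.norm_eq_abs, Real.norm_eq_abs] at h1
    exact h1.trans ((mul_le_mul_of_nonneg_left (hdiff x hx) hM.le).trans hlM)
  have hup : ∀ x ∈ Set.Ico a (a + l), |F1 x| ≤ 5 / 2 * ρ := by
    intro x hx
    have h1 := hF1d x hx
    have h2 : |F1 x| ≤ |F1 x - F1 b| + |F1 b| := by
      have := abs_add_le (F1 x - F1 b) (F1 b)
      rwa [sub_add_cancel] at this
    linarith
  have hlow : ∀ x ∈ Set.Ico a (a + l), ρ / 2 ≤ |F1 x| := by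
    intro x hx
    have h1 := hF1d x hx
    have h2 : |F1 b| ≤ |F1 x - F1 b| + |F1 x| := by
      have := abs_add_le (F1 b - F1 x) (F1 x)
      rw [sub_add_cancel, abs_sub_comm] at this
      exact this
    linarith
  have hB : {β : ℝ | β ∈ Set.Icc (0 : ℝ) 2 ∧ |F β| ≤ δ + 3 * (ρ * l)} ∩ Set.Ico a (a + l) =
      Set.Ico a (a + l) := by
    refine Set.inter_eq_right.2 fun x hx => ⟨hsub2 hx, ?_⟩
    have h1 := Convex.norm_image_sub_le_of_norm_hasDerivWithin_le (f := F) (f' := F1)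
      (C := 5 / 2 * ρ) (s := Set.Ico a (a + l)) (fun y _ => (hF y).hasDerivWithinAt)
      (fun y hy => by rw [Real.norm_eq_abs]; exact hup y hy) (convex_Ico a (a + l))
      ⟨hb5, hb6⟩ hx
    rw [Real.norm_eq_abs, Real.norm_eq_abs] at h1
    have h2 : |F x| ≤ |F x - F b| + |F b| := by
      have := abs_add_le (F x - F b) (F b)
      rwa [sub_add_cancel] at this
    have h3 : 5 / 2 * ρ * |x - b| ≤ 5 / 2 * ρ * l :=
      mul_le_mul_of_nonneg_left (hdiff x hx) (by positivity)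
    have h4 : 0 < ρ * l := mul_pos hρ hl
    linarith
  have hA : {β : ℝ | β ∈ Set.Icc (0 : ℝ) 1 ∧ |F β| ≤ δ ∧ ρ ≤ |F1 β| ∧ |F1 β| ≤ 2 * ρ} ∩
      Set.Ico a (a + l) ⊆ Set.Icc (b - 4 * δ / ρ) (b + 4 * δ / ρ) := by
    rintro x ⟨⟨-, hx2, -, -⟩, hx⟩
    have key : ρ / 2 * |x - b| ≤ 2 * δ := by
      have h1 : |F x - F b| ≤ 2 * δ := by
        have := abs_sub (F x) (F b)
        linarith
      refine le_trans ?_ h1
      rcases lt_trichotomy x b with h | h | h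
      · obtain ⟨c, hc1, hc2⟩ := exists_hasDerivAt_eq_slope F F1 h
          (fun y _ => (hF y).continuousAt.continuousWithinAt) (fun y _ => hF y)
        have hc3 : F b - F x = F1 c * (b - x) := by
          rw [hc2, div_mul_cancel₀ _ (sub_pos.2 h).ne']
        rw [abs_sub_comm, abs_sub_comm (F x), hc3, abs_mul]
        refine mul_le_mul_of_nonneg_right (hlow c ⟨hx.1.trans hc1.1.le, ?_⟩) (abs_nonneg _)
        exact hc1.2.trans hb6
      · rw [h, sub_self, sub_self, abs_zero, mul_zero]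
      · obtain ⟨c, hc1, hc2⟩ := exists_hasDerivAt_eq_slope F F1 h
          (fun y _ => (hF y).continuousAt.continuousWithinAt) (fun y _ => hF y)
        have hc3 : F x - F b = F1 c * (x - b) := by
          rw [hc2, div_mul_cancel₀ _ (sub_pos.2 h).ne']
        rw [hc3, abs_mul]
        refine mul_le_mul_of_nonneg_right (hlow c ⟨hb5.trans hc1.1.le, ?_⟩) (abs_nonneg _)
        exact hc1.2.trans hx.2
    have h2 : |x - b| ≤ 4 * δ / ρ := by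
      rw [le_div_iff₀ hρ]
      linarith
    rw [abs_le] at h2
    constructor <;> linarith [h2.1, h2.2]
  rw [hB]
  refine (measure_mono hA).trans ?_
  rw [Real.volume_Icc, Real.volume_Ico, ← ENNReal.ofReal_mul (by positivity)]
  refine ENNReal.ofReal_le_ofReal (le_of_eq ?_)
  field_simp
  ring

theorem tl {F F1 F2 : ℝ → ℝ} {δ ρ M : ℝ} (hδ : 0 ≤ δ) (hρ : 0 < ρ) (hM : 0 < M)
    (hF : ∀ β, HasDerivAt F (F1 β) β) (hF1 : ∀ β, HasDerivAt F1 (F2 β) β)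
    (hF2 : ∀ β ∈ Set.Icc (0 : ℝ) 2, |F2 β| ≤ M) :
    (volume {β : ℝ | β ∈ Set.Icc (0 : ℝ) 1 ∧ |F β| ≤ δ ∧ ρ ≤ |F1 β| ∧ |F1 β| ≤ 2 * ρ}).toReal ≤
      8 * δ / (ρ * min 1 (ρ / (2 * M))) *
        (volume {β : ℝ | β ∈ Set.Icc (0 : ℝ) 2 ∧
          |F β| ≤ δ + 3 * (ρ * min 1 (ρ / (2 * M)))}).toReal := by
  have hl : 0 < min 1 (ρ / (2 * M)) := lt_min one_pos (by positivity)
  have hl1 : min 1 (ρ / (2 * M)) ≤ 1 := min_le_left _ _
  have hlM : M * min 1 (ρ / (2 * M)) ≤ ρ / 2 := by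
    have h1 : M * min 1 (ρ / (2 * M)) ≤ M * (ρ / (2 * M)) :=
      mul_le_mul_of_nonneg_left (min_le_right _ _) hM.le
    refine h1.trans (le_of_eq ?_)
    field_simp
  generalize min 1 (ρ / (2 * M)) = l at hl hl1 hlM ⊢
  set A := {β : ℝ | β ∈ Set.Icc (0 : ℝ) 1 ∧ |F β| ≤ δ ∧ ρ ≤ |F1 β| ∧ |F1 β| ≤ 2 * ρ} with hA
  set B := {β : ℝ | β ∈ Set.Icc (0 : ℝ) 2 ∧ |F β| ≤ δ + 3 * (ρ * l)} with hB
  have hcov : A ⊆ ⋃ i ∈ Finset.range (⌊1 / l⌋₊ + 1), (A ∩ Set.Ico ((i : ℝ) * l) ((i : ℝ) * l + l)) := by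
    intro x hx
    rw [Set.mem_iUnion₂]
    have hx0 : 0 ≤ x := hx.1.1
    have hx1 : x ≤ 1 := hx.1.2
    refine ⟨⌊x / l⌋₊, ?_, hx, ?_, ?_⟩
    · rw [Finset.mem_range]
      have h1 : ⌊x / l⌋₊ ≤ ⌊1 / l⌋₊ := Nat.floor_le_floor (div_le_div_of_nonneg_right hx1 hl.le)
      omega
    · have h1 : (⌊x / l⌋₊ : ℝ) ≤ x / l := Nat.floor_le (by positivity)
      rwa [le_div_iff₀ hl] at h1
    · have h1 : x / l < (⌊x / l⌋₊ : ℝ) + 1 := Nat.lt_floor_add_one _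
      rw [div_lt_iff₀ hl] at h1
      linarith
  have hdisj : Set.PairwiseDisjoint (↑(Finset.range (⌊1 / l⌋₊ + 1)) : Set ℕ)
      (fun i : ℕ => Set.Ico ((i : ℝ) * l) ((i : ℝ) * l + l)) := by
    intro i _ j _ hij
    rw [Function.onFun, Set.disjoint_left]
    rintro x ⟨hx1, hx2⟩ ⟨hx3, hx4⟩
    rcases lt_or_gt_of_ne hij with h | h
    · have h1 : (i : ℝ) + 1 ≤ j := by exact_mod_cast h
      have h2 : ((i : ℝ) + 1) * l ≤ j * l := mul_le_mul_of_nonneg_right h1 hl.le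
      linarith
    · have h1 : (j : ℝ) + 1 ≤ i := by exact_mod_cast h
      have h2 : ((j : ℝ) + 1) * l ≤ i * l := mul_le_mul_of_nonneg_right h1 hl.le
      linarith
  have hmain : volume A ≤ ENNReal.ofReal (8 * δ / (ρ * l)) * volume B := by
    calc volume A ≤ volume (⋃ i ∈ Finset.range (⌊1 / l⌋₊ + 1),
          (A ∩ Set.Ico ((i : ℝ) * l) ((i : ℝ) * l + l))) := measure_mono hcov
      _ ≤ ∑ i ∈ Finset.range (⌊1 / l⌋₊ + 1),
          volume (A ∩ Set.Ico ((i : ℝ) * l) ((i : ℝ) * l + l)) := measure_biUnion_finset_le _ _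
      _ ≤ ∑ i ∈ Finset.range (⌊1 / l⌋₊ + 1), ENNReal.ofReal (8 * δ / (ρ * l)) *
          (volume.restrict B) (Set.Ico ((i : ℝ) * l) ((i : ℝ) * l + l)) := by
          refine Finset.sum_le_sum fun i _ => ?_
          rw [Measure.restrict_apply measurableSet_Ico, Set.inter_comm _ B]
          exact TL_local hδ hρ hM hl hl1 hlM hF hF1 hF2 _ (by positivity)
      _ = ENNReal.ofReal (8 * δ / (ρ * l)) * (volume.restrict B)
          (⋃ i ∈ Finset.range (⌊1 / l⌋₊ + 1), Set.Ico ((i : ℝ) * l) ((i : ℝ) * l + l)) := by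
          rw [measure_biUnion_finset hdisj (fun i _ => measurableSet_Ico), Finset.mul_sum]
      _ ≤ ENNReal.ofReal (8 * δ / (ρ * l)) * (volume.restrict B) Set.univ := by
          gcongr
          exact Set.subset_univ _
      _ = ENNReal.ofReal (8 * δ / (ρ * l)) * volume B := by
          rw [Measure.restrict_apply_univ]
  have hBfin : volume B ≠ ⊤ := by
    refine ((measure_mono (show B ⊆ Set.Icc (0 : ℝ) 2 from fun x hx => hx.1)).trans_lt ?_).ne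
    rw [Real.volume_Icc]
    exact ENNReal.ofReal_lt_top
  have h0 : 0 ≤ 8 * δ / (ρ * l) := by positivity
  have h1 := ENNReal.toReal_mono (ENNReal.mul_ne_top ENNReal.ofReal_ne_top hBfin) hmain
  rwa [ENNReal.toReal_mul, ENNReal.toReal_ofReal h0] at h1

end Pool.Agent.Lib.MP_570bef_ntSH
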