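import Mathlib
import Pool.Agent.Lib.MP_570bef_ntSH.TL

/-!
# JOB TLd: dyadic decomposition in the size of the derivative (about 70 lines)

For `β ∈ [0,1]` with `|F β| ≤ δ`: either `|F1 β| ≤ ρ0`, or `ρ0 < |F1 β| ≤ W ≤ 2^n ρ0` and there is `i < n` with `2^i ρ0 ≤ |F1 β| ≤ 2 * (2^i ρ0)` (induction on `n`, or `Nat.find` of the least `m` with `|F1 β| ≤ 2^m ρ0`).
The set is contained in the union of the finitely many sets; subadditivity (all sets are in `[0, 1]`, so of finite measure; work with `ENNReal` and `toReal`, or `measureReal`), and `tl` for every `i` with `ρ = 2^i ρ0`.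
-/

set_option autoImplicit false

namespace Pool.Agent.Lib.MP_570bef_ntSH

open MeasureTheory

private theorem tld_step {x ρ : ℝ} (h : ρ < x) : ∀ n : ℕ, x ≤ 2 ^ n * ρ →
    ∃ i : ℕ, i < n ∧ 2 ^ i * ρ ≤ x ∧ x ≤ 2 * (2 ^ i * ρ) := by
  intro n
  induction n with
  | zero =>
    intro h1
    rw [pow_zero, one_mul] at h1
    exact absurd h1 (not_le.2 h)
  | succ n ih =>
    intro h1
    by_cases h2 : x ≤ 2 ^ n * ρ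
    · obtain ⟨i, hi, h3⟩ := ih h2
      exact ⟨i, by omega, h3⟩
    · refine ⟨n, by omega, (lt_of_not_ge h2).le, ?_⟩
      rw [pow_succ] at h1
      linarith

theorem tl_dyadic {F F1 F2 : ℝ → ℝ} {δ ρ0 M W : ℝ} (hδ : 0 ≤ δ) (hρ : 0 < ρ0) (hM : 0 < M)
    (hF : ∀ β, HasDerivAt F (F1 β) β) (hF1 : ∀ β, HasDerivAt F1 (F2 β) β)
    (hF2 : ∀ β ∈ Set.Icc (0 : ℝ) 2, |F2 β| ≤ M) (hW : ∀ β ∈ Set.Icc (0 : ℝ) 1, |F1 β| ≤ W)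
    (n : ℕ) (hn : W ≤ 2 ^ n * ρ0) :
    (volume {β : ℝ | β ∈ Set.Icc (0 : ℝ) 1 ∧ |F β| ≤ δ}).toReal ≤
      (volume {β : ℝ | β ∈ Set.Icc (0 : ℝ) 1 ∧ |F β| ≤ δ ∧ |F1 β| ≤ ρ0}).toReal +
      ∑ i ∈ Finset.range n, 8 * δ / ((2 ^ i * ρ0) * min 1 ((2 ^ i * ρ0) / (2 * M))) *
        (volume {β : ℝ | β ∈ Set.Icc (0 : ℝ) 2 ∧
          |F β| ≤ δ + 3 * ((2 ^ i * ρ0) * min 1 ((2 ^ i * ρ0) / (2 * M)))}).toReal := by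
  have hcov : {β : ℝ | β ∈ Set.Icc (0 : ℝ) 1 ∧ |F β| ≤ δ} ⊆
      {β : ℝ | β ∈ Set.Icc (0 : ℝ) 1 ∧ |F β| ≤ δ ∧ |F1 β| ≤ ρ0} ∪
      ⋃ i ∈ Finset.range n, {β : ℝ | β ∈ Set.Icc (0 : ℝ) 1 ∧ |F β| ≤ δ ∧
        2 ^ i * ρ0 ≤ |F1 β| ∧ |F1 β| ≤ 2 * (2 ^ i * ρ0)} := by
    rintro β ⟨h1, h2⟩
    by_cases h3 : |F1 β| ≤ ρ0
    · exact Or.inl ⟨h1, h2, h3⟩
    · right
      obtain ⟨i, hi, h4, h5⟩ := tld_step (lt_of_not_ge h3) n ((hW β h1).trans hn)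
      exact Set.mem_biUnion (Finset.mem_coe.2 (Finset.mem_range.2 hi)) ⟨h1, h2, h4, h5⟩
  have hfin : volume ({β : ℝ | β ∈ Set.Icc (0 : ℝ) 1 ∧ |F β| ≤ δ ∧ |F1 β| ≤ ρ0} ∪
      ⋃ i ∈ Finset.range n, {β : ℝ | β ∈ Set.Icc (0 : ℝ) 1 ∧ |F β| ≤ δ ∧
        2 ^ i * ρ0 ≤ |F1 β| ∧ |F1 β| ≤ 2 * (2 ^ i * ρ0)}) ≠ ⊤ := by
    refine ne_top_of_le_ne_top (b := volume (Set.Icc (0 : ℝ) 1)) ?_ (measure_mono ?_)
    · rw [Real.volume_Icc]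
      exact ENNReal.ofReal_ne_top
    · rintro β (h | h)
      · exact h.1
      · rw [Set.mem_iUnion₂] at h
        obtain ⟨i, _, hi⟩ := h
        exact hi.1
  have h1 := ENNReal.toReal_mono hfin (measure_mono hcov)
  have h2 := measureReal_union_le (μ := volume)
    {β : ℝ | β ∈ Set.Icc (0 : ℝ) 1 ∧ |F β| ≤ δ ∧ |F1 β| ≤ ρ0}
    (⋃ i ∈ Finset.range n, {β : ℝ | β ∈ Set.Icc (0 : ℝ) 1 ∧ |F β| ≤ δ ∧
        2 ^ i * ρ0 ≤ |F1 β| ∧ |F1 β| ≤ 2 * (2 ^ i * ρ0)})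
  have h3 := measureReal_biUnion_finset_le (μ := volume) (Finset.range n)
    (fun i => {β : ℝ | β ∈ Set.Icc (0 : ℝ) 1 ∧ |F β| ≤ δ ∧
        2 ^ i * ρ0 ≤ |F1 β| ∧ |F1 β| ≤ 2 * (2 ^ i * ρ0)})
  have h4 : ∑ i ∈ Finset.range n, (volume {β : ℝ | β ∈ Set.Icc (0 : ℝ) 1 ∧ |F β| ≤ δ ∧
        2 ^ i * ρ0 ≤ |F1 β| ∧ |F1 β| ≤ 2 * (2 ^ i * ρ0)}).toReal ≤
      ∑ i ∈ Finset.range n, 8 * δ / ((2 ^ i * ρ0) * min 1 ((2 ^ i * ρ0) / (2 * M))) *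
        (volume {β : ℝ | β ∈ Set.Icc (0 : ℝ) 2 ∧
          |F β| ≤ δ + 3 * ((2 ^ i * ρ0) * min 1 ((2 ^ i * ρ0) / (2 * M)))}).toReal :=
    Finset.sum_le_sum fun i _ => tl hδ (by positivity) hM hF hF1 hF2
  unfold Measure.real at h2 h3
  linarith

end Pool.Agent.Lib.MP_570bef_ntSH
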