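import Mathlib
import Pool.Agent.Lib.MP_570bef_ntSH.Step
import Pool.Agent.Lib.MP_570bef_ntSH.SMa
import Pool.Agent.Lib.MP_570bef_ntSH.TLd

/-!
# JOB SMint: the second moment (about 120 lines)

`X0` from `num`.  `z` runs over `Z = TT ×ˢ TT`, `F z β = Pt k β z.1 - Pt k β z.2` (`Pt_cont`); by `int_count` the integral of `NN` is `∑ z ∈ Z, volume {β ∈ [0,1] : |F z β| ≤ δ}`.
`tl_dyadic` for every `z ∈ Z` with `F1 β = k (Pt (k-1) β z.1 - Pt (k-1) β z.2)`, `F2 β = k (k-1) (Pt (k-2) β z.1 - Pt (k-2) β z.2)` (`F_der`, `F1_der`, `F1_bound`, `F2_bound`, `MM_pos`), `ρ0 = rho0 k s X`, `M = MM k s j X`, `W = WW k s j X` and `n` from `num`; sum over `z ∈ Z`, exchange the sums.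
First part: `step_small` with `ρ = rho0`: `≤ C card TT X^(k - 1 - k κ^s) X^(1 - k κ^j) = C card TT X^(k - k κ^s - k κ^j) ≤ C 2^(s+j) (card TT)^2 X^(-k)` by `TT_card_ge` (`X^(k - k κ^s - k κ^j) = X^(-k) X^(k (1 - κ^s) + k (1 - κ^j))`).
Part `i < n`: `w = (2^i rho0) * min 1 (2^i rho0/(2 MM)) ≥ X^(k κ^s) ≥ δ` by `min_step` and `num`: `step_one`: `≤ C δ (card TT)^2 X^(-k)`.
Total `≤ (C' + n C δ) (card TT)^2 X^(-k) ≤ C'' (1 + log X) (card TT)^2 X^(-k)`.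
-/

set_option autoImplicit false

namespace Pool.Agent.Lib.MP_570bef_ntSH

open MeasureTheory Finset
open Pool.Agent.Lib.MP_570bef_ntS

private theorem SMint_card {k s j : ℕ} (hk : 2 ≤ k) {X : ℝ} (hX : 1 ≤ X) :
    rho0 k s X * X ^ (1 - (k : ℝ) * kap k ^ j) ≤
      2 ^ (s + j) * ((TT k s j X).card : ℝ) * X ^ (-(k : ℝ)) := by
  have hX0 : 0 < X := by linarith
  have h1 := TT_card_ge (k := k) (s := s) (j := j) hk hX
  have h2 : rho0 k s X * X ^ (1 - (k : ℝ) * kap k ^ j) =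
      X ^ ((k : ℝ) * (1 - kap k ^ s) + (k : ℝ) * (1 - kap k ^ j)) * X ^ (-(k : ℝ)) := by
    unfold rho0
    rw [← Real.rpow_add hX0, ← Real.rpow_add hX0]
    congr 1
    ring
  have h3 : X ^ ((k : ℝ) * (1 - kap k ^ s) + (k : ℝ) * (1 - kap k ^ j)) ≤
      2 ^ (s + j) * ((TT k s j X).card : ℝ) := by
    have h4 : (2 : ℝ) ^ (s + j) * ((1 / 2) ^ (s + j) *
        X ^ ((k : ℝ) * (1 - kap k ^ s) + (k : ℝ) * (1 - kap k ^ j))) =
        X ^ ((k : ℝ) * (1 - kap k ^ s) + (k : ℝ) * (1 - kap k ^ j)) := by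
      rw [← mul_assoc, ← mul_pow]
      norm_num
    rw [← h4]
    exact mul_le_mul_of_nonneg_left h1 (by positivity)
  rw [h2]
  exact mul_le_mul_of_nonneg_right h3 (Real.rpow_nonneg hX0.le _)

theorem sm_int {k s j : ℕ} (h : Good k s j) {δ : ℝ} (hδ : 0 < δ) :
    ∃ C X0 : ℝ, 0 < C ∧ 1 ≤ X0 ∧ ∀ X ≥ X0,
      IntervalIntegrable (fun β => (NN k s j β δ X : ℝ)) volume 0 1 ∧
      ∫ β in (0 : ℝ)..1, (NN k s j β δ X : ℝ) ≤
        C * (1 + Real.log X) * ((TT k s j X).card : ℝ) ^ 2 * X ^ (-(k : ℝ)) := by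
  obtain ⟨Cn, X0, hCn, hX0, hnum⟩ := num h hδ
  obtain ⟨C1, hC1, hsmall⟩ := step_small k s j h.hk h.hj
  obtain ⟨C2, hC2, hone⟩ := step_one k s j h.hk
  refine ⟨C1 * 2 ^ (s + j) + Cn * C2 * δ, X0, by positivity, hX0, fun X hX => ?_⟩
  obtain ⟨hn1, hn2, hn3, n, hn4, hn5⟩ := hnum X hX
  have hX1 : 1 ≤ X := hX0.trans hX
  have hXp : 0 < X := by linarith
  have hlog : 0 ≤ Real.log X := Real.log_nonneg hX1
  obtain ⟨hI, hInt⟩ := int_count (TT k s j X ×ˢ TT k s j X)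
    (fun z β => Pt k β z.1 - Pt k β z.2)
    (fun z _ => (Pt_cont k z.1).sub (Pt_cont k z.2)) δ
  refine ⟨hI, ?_⟩
  have hρ : 0 < rho0 k s X := rho0_pos hX1
  have hM : 0 < MM k s j X := MM_pos h hX1
  obtain ⟨w, hw⟩ : ∃ w : ℕ → ℝ, ∀ i, w i =
      (2 ^ i * rho0 k s X) * min 1 ((2 ^ i * rho0 k s X) / (2 * MM k s j X)) :=
    ⟨_, fun _ => rfl⟩
  have hwge : ∀ i, X ^ ((k : ℝ) * kap k ^ s) ≤ w i := fun i => by
    rw [hw]
    exact hn3.trans (min_step h hX1 i)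
  have hKX : 0 ≤ X ^ (-(k : ℝ)) := Real.rpow_nonneg hXp.le _
  have hz : ∀ z ∈ TT k s j X ×ˢ TT k s j X,
      (volume {β : ℝ | β ∈ Set.Icc (0 : ℝ) 1 ∧ |Pt k β z.1 - Pt k β z.2| ≤ δ}).toReal ≤
      (volume {β : ℝ | β ∈ Set.Icc (0 : ℝ) 1 ∧ |Pt k β z.1 - Pt k β z.2| ≤ δ ∧
        |(k : ℝ) * (Pt (k - 1) β z.1 - Pt (k - 1) β z.2)| ≤ rho0 k s X}).toReal +
      ∑ i ∈ Finset.range n, 8 * δ / w i *
        (volume {β : ℝ | β ∈ Set.Icc (0 : ℝ) 2 ∧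
          |Pt k β z.1 - Pt k β z.2| ≤ δ + 3 * w i}).toReal := by
    intro z hz
    rw [Finset.mem_product] at hz
    have h3 := tl_dyadic (F := fun β => Pt k β z.1 - Pt k β z.2)
      (F1 := fun β => (k : ℝ) * (Pt (k - 1) β z.1 - Pt (k - 1) β z.2))
      (F2 := fun β => (k : ℝ) * ((k : ℝ) - 1) * (Pt (k - 2) β z.1 - Pt (k - 2) β z.2))
      (δ := δ) (ρ0 := rho0 k s X) (M := MM k s j X) (W := WW k s j X) hδ.le hρ hM
      (fun β => F_der h.hk z.1 z.2 β) (fun β => F1_der h.hk z.1 z.2 β)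
      (fun β hβ => F2_bound h.hk hX1 hβ.1 hβ.2 hz.1 hz.2)
      (fun β hβ => F1_bound h.hk hX1 hβ.1 (by linarith [hβ.2]) hz.1 hz.2) n hn4
    simp only [hw]
    exact h3
  have hfirst := hsmall X (rho0 k s X) δ hX1 hn1 hn2
  have hcard := SMint_card (s := s) (j := j) h.hk hX1
  have hc0 : (0 : ℝ) ≤ ((TT k s j X).card : ℝ) := Nat.cast_nonneg _
  have hfirst2 : C1 * ((TT k s j X).card : ℝ) * rho0 k s X * X ^ (1 - (k : ℝ) * kap k ^ j) ≤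
      C1 * 2 ^ (s + j) * (((TT k s j X).card : ℝ) ^ 2 * X ^ (-(k : ℝ))) := by
    have h4 : C1 * ((TT k s j X).card : ℝ) * (rho0 k s X * X ^ (1 - (k : ℝ) * kap k ^ j)) ≤
        C1 * ((TT k s j X).card : ℝ) *
          (2 ^ (s + j) * ((TT k s j X).card : ℝ) * X ^ (-(k : ℝ))) :=
      mul_le_mul_of_nonneg_left hcard (by positivity)
    calc C1 * ((TT k s j X).card : ℝ) * rho0 k s X * X ^ (1 - (k : ℝ) * kap k ^ j)
        = C1 * ((TT k s j X).card : ℝ) * (rho0 k s X * X ^ (1 - (k : ℝ) * kap k ^ j)) := by ring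
      _ ≤ C1 * ((TT k s j X).card : ℝ) *
          (2 ^ (s + j) * ((TT k s j X).card : ℝ) * X ^ (-(k : ℝ))) := h4
      _ = C1 * 2 ^ (s + j) * (((TT k s j X).card : ℝ) ^ 2 * X ^ (-(k : ℝ))) := by ring
  have hsecond : ∑ i ∈ Finset.range n, 8 * δ / w i *
      ∑ z ∈ TT k s j X ×ˢ TT k s j X,
        (volume {β : ℝ | β ∈ Set.Icc (0 : ℝ) 2 ∧
          |Pt k β z.1 - Pt k β z.2| ≤ δ + 3 * w i}).toReal ≤
      Cn * C2 * δ * (1 + Real.log X) * (((TT k s j X).card : ℝ) ^ 2 * X ^ (-(k : ℝ))) := by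
    have h4 : ∀ i ∈ Finset.range n, 8 * δ / w i *
      ∑ z ∈ TT k s j X ×ˢ TT k s j X,
        (volume {β : ℝ | β ∈ Set.Icc (0 : ℝ) 2 ∧
          |Pt k β z.1 - Pt k β z.2| ≤ δ + 3 * w i}).toReal ≤
        C2 * δ * ((TT k s j X).card : ℝ) ^ 2 * X ^ (-(k : ℝ)) := fun i _ =>
      hone X (w i) δ hX1 hδ (hn1.trans (hwge i)) (hwge i)
    refine (Finset.sum_le_sum h4).trans ?_
    rw [Finset.sum_const, Finset.card_range, nsmul_eq_mul]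
    have h5 : (n : ℝ) * (C2 * δ * ((TT k s j X).card : ℝ) ^ 2 * X ^ (-(k : ℝ))) ≤
        (Cn * (1 + Real.log X)) * (C2 * δ * ((TT k s j X).card : ℝ) ^ 2 * X ^ (-(k : ℝ))) :=
      mul_le_mul_of_nonneg_right hn5 (by positivity)
    refine h5.trans (le_of_eq ?_)
    ring
  have htot : ∫ β in (0 : ℝ)..1, (NN k s j β δ X : ℝ) =
      ∑ z ∈ TT k s j X ×ˢ TT k s j X,
        (volume {β : ℝ | β ∈ Set.Icc (0 : ℝ) 1 ∧ |Pt k β z.1 - Pt k β z.2| ≤ δ}).toReal := hInt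
  rw [htot]
  refine (Finset.sum_le_sum hz).trans ?_
  rw [Finset.sum_add_distrib, Finset.sum_comm]
  have hcomm : ∑ i ∈ Finset.range n, ∑ z ∈ TT k s j X ×ˢ TT k s j X, 8 * δ / w i *
        (volume {β : ℝ | β ∈ Set.Icc (0 : ℝ) 2 ∧
          |Pt k β z.1 - Pt k β z.2| ≤ δ + 3 * w i}).toReal =
      ∑ i ∈ Finset.range n, 8 * δ / w i * ∑ z ∈ TT k s j X ×ˢ TT k s j X,
        (volume {β : ℝ | β ∈ Set.Icc (0 : ℝ) 2 ∧
          |Pt k β z.1 - Pt k β z.2| ≤ δ + 3 * w i}).toReal :=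
    Finset.sum_congr rfl fun i _ => by rw [Finset.mul_sum]
  rw [hcomm]
  have hB : 0 ≤ ((TT k s j X).card : ℝ) ^ 2 * X ^ (-(k : ℝ)) := by positivity
  have hC1' : C1 * 2 ^ (s + j) * (((TT k s j X).card : ℝ) ^ 2 * X ^ (-(k : ℝ))) ≤
      C1 * 2 ^ (s + j) * (1 + Real.log X) * (((TT k s j X).card : ℝ) ^ 2 * X ^ (-(k : ℝ))) := by
    refine mul_le_mul_of_nonneg_right ?_ hB
    have h6 : 0 ≤ C1 * 2 ^ (s + j) := by positivity
    nlinarith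
  have hfin : (C1 * 2 ^ (s + j) + Cn * C2 * δ) * (1 + Real.log X) *
      ((TT k s j X).card : ℝ) ^ 2 * X ^ (-(k : ℝ)) =
      C1 * 2 ^ (s + j) * (1 + Real.log X) * (((TT k s j X).card : ℝ) ^ 2 * X ^ (-(k : ℝ))) +
      Cn * C2 * δ * (1 + Real.log X) * (((TT k s j X).card : ℝ) ^ 2 * X ^ (-(k : ℝ))) := by
    ring
  rw [hfin]
  linarith

end Pool.Agent.Lib.MP_570bef_ntSH
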