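import Mathlib
import Pool.Agent.Lib.MP_570bef_ntSH.SMint
import Pool.Agent.Lib.MP_570bef_ntSH.Lip
import Pool.Agent.Lib.MP_570bef_ntSH.CountT
import Pool.Agent.Lib.MP_570bef_ntRE.HDim

/-!
# JOB SMdim: the exceptional set of shifts has dimension below one (about 130 lines)

The set only shrinks when `η` increases, so replace `η` by `min η 1` (`dimH_mono`).
`X = 2^m`, `E m = {β ∈ [0,1] : (card TT)^2 X^(-k+η) < NN k s j β δ X}`; the set in the statement is the set of `β` which are in `E m` for infinitely many `m`.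
`r = 1/n` with `n = 2 * 2^(m k)` a natural number, so `1/n = 1/(2 X^k)`.  `count_two` with `E = E m`, `N β = NN k s j β (2δ) X`, `θ = (card TT)^2 X^(-k+η)` (`NN_lip`, `sm_int` with `2δ`): a finite set `M m` with `E m ⊆ ⋃ Icc (i r) ((i+1) r)` and `card (M m) * r * θ ≤ C (1 + log X) (card TT)^2 X^(-k)`; `card TT > 0` (`TT_card_ge`), so `card (M m) * r ≤ C (1 + log X) X^(-η) ≤ C' X^(-η/2)` for large `m` (`log X ≤ C X^(η/2)`).
Then `hdim_lemma` from `MP_570bef_ntRE.HDim` (read its statement in that file) with `a = 0`, `ρ = k`, and `η/2` for its `η`: dimension below one.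
-/

set_option autoImplicit false

namespace Pool.Agent.Lib.MP_570bef_ntSH

open MeasureTheory Finset
open Pool.Agent.Lib.MP_570bef_ntS

/-- the set of the shifts with many coincidences at the scale `2 ^ m` -/
private def SMdim_E (k s j : ℕ) (δ η : ℝ) (m : ℕ) : Set ℝ :=
  {β : ℝ | β ∈ Set.Icc (0 : ℝ) 1 ∧
    ((TT k s j ((2 : ℝ) ^ m)).card : ℝ) ^ 2 * ((2 : ℝ) ^ m) ^ (-(k : ℝ) + η) <
      (NN k s j β δ ((2 : ℝ) ^ m) : ℝ)}

private theorem SMdim_log {η X : ℝ} (hη : 0 < η) (hX : 1 ≤ X) :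
    1 + Real.log X ≤ (1 + 2 / η) * X ^ (η / 2) := by
  have h1 : Real.log X ≤ X ^ (η / 2) / (η / 2) := Real.log_le_rpow_div (by linarith) (by linarith)
  have h2 : 1 ≤ X ^ (η / 2) := Real.one_le_rpow hX (by linarith)
  have h3 : X ^ (η / 2) / (η / 2) = 2 / η * X ^ (η / 2) := by
    field_simp
  rw [h3] at h1
  linarith

private theorem SMdim_level {k s j : ℕ} (h : Good k s j) {δ η : ℝ} (hδ : 0 < δ) (hη : 0 < η) :
    ∃ (C : ℝ) (m0 : ℕ), 0 ≤ C ∧ ∀ m ≥ m0, ∃ M : Finset ℕ,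
      SMdim_E k s j δ η m ⊆ ⋃ i ∈ M, Set.Icc (0 + (i : ℝ) * (((2 : ℝ) ^ m) ^ (-(k : ℝ)) / 2))
        (0 + ((i : ℝ) + 1) * (((2 : ℝ) ^ m) ^ (-(k : ℝ)) / 2)) ∧
      (M.card : ℝ) * (((2 : ℝ) ^ m) ^ (-(k : ℝ)) / 2) ≤ C * ((2 : ℝ) ^ m) ^ (-(η / 2)) := by
  obtain ⟨C, X0, hC, hX0, hint⟩ := sm_int h (show 0 < 2 * δ by linarith)
  obtain ⟨X1, hX1, hlip⟩ := NN_lip k s j h.hk hδ
  have ht : Filter.Tendsto (fun m : ℕ => (2 : ℝ) ^ m) Filter.atTop Filter.atTop :=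
    tendsto_pow_atTop_atTop_of_one_lt (by norm_num)
  obtain ⟨m0, hm0⟩ := Filter.eventually_atTop.1 (ht.eventually_ge_atTop (max X0 X1))
  refine ⟨C * (1 + 2 / η), m0, by positivity, fun m hm => ?_⟩
  obtain ⟨X, hX⟩ : ∃ X : ℝ, X = (2 : ℝ) ^ m := ⟨_, rfl⟩
  have hXm := hm0 m hm
  have hXa : X0 ≤ X := by
    rw [hX]
    exact (le_max_left _ _).trans hXm
  have hXb : X1 ≤ X := by
    rw [hX]
    exact (le_max_right _ _).trans hXm
  have hX1' : 1 ≤ X := hX0.trans hXa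
  have hXpos : 0 < X := by linarith
  obtain ⟨hi1, hi2⟩ := hint X hXa
  have hn : ((2 * 2 ^ (m * k) : ℕ) : ℝ) = 2 * X ^ k := by
    push_cast
    rw [hX, pow_mul]
  have hrpow : X ^ (-(k : ℝ)) / 2 = 1 / ((2 * 2 ^ (m * k) : ℕ) : ℝ) := by
    rw [hn, Real.rpow_neg hXpos.le, Real.rpow_natCast]
    field_simp
  obtain ⟨Kc, hKc⟩ : ∃ Kc : ℝ, Kc = ((TT k s j X).card : ℝ) := ⟨_, rfl⟩
  obtain ⟨θ, hθ⟩ : ∃ θ : ℝ, θ = Kc ^ 2 * X ^ (-(k : ℝ) + η) := ⟨_, rfl⟩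
  have hKc0 : 0 < Kc := by
    rw [hKc]
    have h1 := TT_card_ge (k := k) (s := s) (j := j) h.hk hX1'
    exact lt_of_lt_of_le (by positivity) h1
  obtain ⟨M, hM1, hM2⟩ := count_two (E := SMdim_E k s j δ η m)
    (N := fun β => (NN k s j β (2 * δ) X : ℝ)) (θ := θ) (2 * 2 ^ (m * k))
    (by have := Nat.one_le_two_pow (n := m * k); omega) (fun β hβ => hβ.1)
    (fun β => Nat.cast_nonneg _) hi1 (fun β hβ β' hβ' hd => by
      have h1 := hβ.2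
      rw [← hX, ← hKc, ← hθ] at h1
      rw [hn] at hd
      have h2 := hlip X hXb β hβ.1 β' hβ' hd
      have h3 : (NN k s j β δ X : ℝ) ≤ (NN k s j β' (2 * δ) X : ℝ) := by exact_mod_cast h2
      exact h1.le.trans h3)
  refine ⟨M, ?_, ?_⟩
  · rw [← hX, hrpow]
    simp only [zero_add]
    exact hM1
  · rw [← hX, hrpow]
    have h1 := hM2.trans hi2
    rw [← hKc] at h1
    have h2 : X ^ (-(k : ℝ) + η) = X ^ (-(k : ℝ)) * X ^ η := Real.rpow_add hXpos _ _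
    rw [hθ, h2] at h1
    have hA : 0 < Kc ^ 2 * X ^ (-(k : ℝ)) := by positivity
    have h3 : (M.card : ℝ) * (1 / ((2 * 2 ^ (m * k) : ℕ) : ℝ)) * X ^ η ≤ C * (1 + Real.log X) := by
      refine le_of_mul_le_mul_right ?_ hA
      calc (M.card : ℝ) * (1 / ((2 * 2 ^ (m * k) : ℕ) : ℝ)) * X ^ η * (Kc ^ 2 * X ^ (-(k : ℝ))) =
          (M.card : ℝ) * (1 / ((2 * 2 ^ (m * k) : ℕ) : ℝ)) *
            (Kc ^ 2 * (X ^ (-(k : ℝ)) * X ^ η)) := by ring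
        _ ≤ _ := h1
        _ = C * (1 + Real.log X) * (Kc ^ 2 * X ^ (-(k : ℝ))) := by ring
    have h4 : C * (1 + Real.log X) ≤ C * ((1 + 2 / η) * X ^ (η / 2)) :=
      mul_le_mul_of_nonneg_left (SMdim_log hη hX1') hC.le
    have h5 := h3.trans h4
    have h6 : X ^ (η / 2) = X ^ (-(η / 2)) * X ^ η := by
      rw [← Real.rpow_add hXpos]
      congr 1
      ring
    rw [h6] at h5
    have h7 : 0 < X ^ η := Real.rpow_pos_of_pos hXpos _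
    refine le_of_mul_le_mul_right ?_ h7
    refine h5.trans (le_of_eq ?_)
    ring

private theorem SMdim_small {k s j : ℕ} (h : Good k s j) {δ η : ℝ} (hδ : 0 < δ) (hη : 0 < η)
    (hη1 : η ≤ 1) :
    dimH {β : ℝ | ∀ M : ℕ, ∃ m ≥ M, β ∈ SMdim_E k s j δ η m} < 1 := by
  obtain ⟨C, m0, hC, hlev⟩ := SMdim_level h hδ hη
  have hk : (2 : ℝ) ≤ k := by exact_mod_cast h.hk
  have hlev' : ∀ m, ∃ M : Finset ℕ, m ≥ m0 →
      SMdim_E k s j δ η m ⊆ ⋃ i ∈ M, Set.Icc (0 + (i : ℝ) * (((2 : ℝ) ^ m) ^ (-(k : ℝ)) / 2))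
        (0 + ((i : ℝ) + 1) * (((2 : ℝ) ^ m) ^ (-(k : ℝ)) / 2)) ∧
      (M.card : ℝ) * (((2 : ℝ) ^ m) ^ (-(k : ℝ)) / 2) ≤ C * ((2 : ℝ) ^ m) ^ (-(η / 2)) := by
    intro m
    by_cases hm : m ≥ m0
    · obtain ⟨M, hM⟩ := hlev m hm
      exact ⟨M, fun _ => hM⟩
    · exact ⟨∅, fun h' => absurd h' hm⟩
  choose M hM using hlev'
  have h1 := Pool.Agent.Lib.MP_570bef_ntRE.hdim_lemma (SMdim_E k s j δ η) (C := C) (η := η / 2)
    (ρ := (k : ℝ)) (by linarith) (by linarith) hC m0 M 0 (fun m hm => (hM m hm).1)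
    (fun m hm => (hM m hm).2)
  refine lt_of_le_of_lt h1 (ENNReal.ofReal_lt_one.2 ?_)
  have h2 : 0 < η / 2 / (2 * (k : ℝ)) := by positivity
  linarith

theorem sm_dim {k s j : ℕ} (h : Good k s j) {δ η : ℝ} (hδ : 0 < δ) (hη : 0 < η) :
    dimH {β : ℝ | β ∈ Set.Icc (0 : ℝ) 1 ∧ ∀ M : ℕ, ∃ m ≥ M,
      ((TT k s j ((2 : ℝ) ^ m)).card : ℝ) ^ 2 * ((2 : ℝ) ^ m) ^ (-(k : ℝ) + η) <
        (NN k s j β δ ((2 : ℝ) ^ m) : ℝ)} < 1 := by
  refine lt_of_le_of_lt (dimH_mono ?_)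
    (SMdim_small h hδ (lt_min hη one_pos) (min_le_right η 1))
  rintro β ⟨hβ, hM⟩ M
  obtain ⟨m, hm, hlt⟩ := hM M
  refine ⟨m, hm, hβ, lt_of_le_of_lt ?_ hlt⟩
  refine mul_le_mul_of_nonneg_left ?_ (by positivity)
  refine Real.rpow_le_rpow_of_exponent_le (one_le_pow₀ (by norm_num)) ?_
  have := min_le_left η 1
  linarith

end Pool.Agent.Lib.MP_570bef_ntSH
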