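import Mathlib
import Pool.Agent.Lib.MP_570bef_ntSH.SMdim

/-!
# The second moment statement
-/

set_option autoImplicit false

namespace Pool.Agent.Lib.MP_570bef_ntSH

open MeasureTheory Finset
open Pool.Agent.Lib.MP_570bef_ntS

private theorem Sms_ph (k : ℕ) {β : ℝ} (hβ : 0 ≤ β) {s : ℕ} (u : Fin s → ℕ) :
    ((∑ i, gs k β (u i) : ℕ) : ℝ) ≤ Ph k β u ∧
      Ph k β u ≤ ((∑ i, gs k β (u i) : ℕ) : ℝ) + s := by
  have h0 : ∀ i : Fin s, (0 : ℝ) ≤ ((u i : ℝ) + β) ^ k := fun i => by positivity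
  unfold Ph gs
  push_cast
  constructor
  · exact Finset.sum_le_sum fun i _ => Nat.floor_le (h0 i)
  · have h1 : ∑ i : Fin s, ((u i : ℝ) + β) ^ k ≤
        ∑ i : Fin s, ((⌊((u i : ℝ) + β) ^ k⌋₊ : ℝ) + 1) :=
      Finset.sum_le_sum fun i _ => (Nat.lt_floor_add_one _).le
    have h2 : ∑ i : Fin s, ((⌊((u i : ℝ) + β) ^ k⌋₊ : ℝ) + 1) =
        ∑ i : Fin s, (⌊((u i : ℝ) + β) ^ k⌋₊ : ℝ) + s := by
      rw [Finset.sum_add_distrib]
      simp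
    linarith

theorem vs_bounds (k : ℕ) {β : ℝ} (hβ : 0 ≤ β) {s j : ℕ} (t : (Fin s → ℕ) × (Fin j → ℕ)) :
    (vs k β t : ℝ) ≤ Pt k β t ∧ Pt k β t ≤ (vs k β t : ℝ) + ((s : ℝ) + j) := by
  have h1 := Sms_ph k hβ t.1
  have h2 := Sms_ph k hβ t.2
  unfold vs Pt
  rw [Nat.cast_add]
  constructor
  · linarith [h1.1, h2.1]
  · linarith [h1.2, h2.2]

theorem JT_le (k s j : ℕ) {β X : ℝ} (hβ : 0 ≤ β) :
    Pool.Agent.Lib.MP_570bef_ntM.JT (TT k s j X) (vs k β) ≤ NN k s j β ((s : ℝ) + j) X := by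
  unfold Pool.Agent.Lib.MP_570bef_ntM.JT NN
  refine Finset.card_le_card fun z hz => ?_
  rw [Finset.mem_filter] at hz ⊢
  refine ⟨hz.1, ?_⟩
  have h1 := vs_bounds k hβ z.1
  have h2 := vs_bounds k hβ z.2
  have h3 : (vs k β z.1 : ℝ) = vs k β z.2 := by exact_mod_cast hz.2
  rw [abs_le]
  constructor <;> linarith [h1.1, h1.2, h2.1, h2.2]

theorem sms : SMS := by
  intro k s j h η hη
  have hk := h.hk
  have hs1 : (1 : ℝ) ≤ s := by exact_mod_cast good_pos h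
  have hδ : 0 < (s : ℝ) + j := by positivity
  refine ⟨_, sm_dim h hδ hη, fun β hβ hβZ => ?_⟩
  have h1 : ∃ M : ℕ, ∀ m ≥ M, (NN k s j β ((s : ℝ) + j) ((2 : ℝ) ^ m) : ℝ) ≤
      ((TT k s j ((2 : ℝ) ^ m)).card : ℝ) ^ 2 * ((2 : ℝ) ^ m) ^ (-(k : ℝ) + η) := by
    by_contra hcon
    push Not at hcon
    exact hβZ ⟨hβ, hcon⟩
  obtain ⟨M, hM⟩ := h1
  refine ⟨fun m => TT k s j ((2 : ℝ) ^ m), ((s : ℝ) + j) * 18 ^ k, ?_⟩
  filter_upwards [Filter.eventually_ge_atTop M] with m hm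
  have hX : (1 : ℝ) ≤ (2 : ℝ) ^ m := one_le_pow₀ (by norm_num)
  refine ⟨?_, ?_, ?_⟩
  · have h2 := TT_card_ge (s := s) (j := j) hk hX
    have h3 : (0 : ℝ) < ((TT k s j ((2 : ℝ) ^ m)).card : ℝ) :=
      lt_of_lt_of_le (by positivity) h2
    exact Finset.card_pos.1 (by exact_mod_cast h3)
  · intro t ht
    have h2 := (vs_bounds k hβ.1 t).1
    have h3 := Pt_le k hk hX hβ.1 (by linarith [hβ.2]) ht
    rw [mul_pow, ← mul_assoc] at h3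
    linarith
  · refine le_trans ?_ (hM m hm)
    exact_mod_cast JT_le k s j hβ.1

end Pool.Agent.Lib.MP_570bef_ntSH
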